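import Pool.Agent.H38.K4.Homs
import Pool.Agent.H16.RB.Rank
import Pool.Agent.H38.RX.Main

/-!
# K4 Main: no planar function on groups of order `3 ^ 6` with `|3 G| = 3 ^ 4`
-/

set_option autoImplicit false

namespace Pool.Agent.H38.K4

open Finset Pool.Agent.H16.RB Pool.Agent.H88.Pl
open scoped Classical

variable {H K : Type*} [AddCommGroup H] [AddCommGroup K]

/-- pairs of points of the graph with difference in a set with at most `N` elements, containing 0 -/
theorem pairs_le [Fintype H] [Fintype K] (hH : Fintype.card H = 729) (f : H → K)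
    (hf : IsPlanar f) (Q : H × K → Prop) (hQ : Q 0) (N : ℕ)
    (hN : (univ.filter fun g : H × K => Q g).card ≤ N) :
    (univ.filter fun z : H × H => Q (gr f z.1 - gr f z.2)).card ≤ 728 + N := by
  have h1 := pair_count f hf Q
  have h2 : (univ.filter fun g : H × K => g.1 ≠ 0 ∧ Q g).card + 1 ≤
      (univ.filter fun g : H × K => Q g).card := by
    rw [← card_singleton (0 : H × K), ← card_union_of_disjoint]
    · apply card_le_card
      intro g hg
      rw [mem_union, mem_filter, mem_singleton] at hg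
      rw [mem_filter]
      rcases hg with hg | rfl
      · exact ⟨hg.1, hg.2.2⟩
      · exact ⟨mem_univ _, hQ⟩
    · rw [disjoint_singleton_right, mem_filter]
      rintro ⟨-, h, -⟩
      exact h rfl
  have h3 : (univ.filter fun z : H × H => z.1 = z.2).card = 729 := by
    rw [← hH, ← Finset.card_univ]
    refine (Finset.card_bij (fun x _ => (x, x)) ?_ ?_ ?_).symm
    · intro x _
      rw [mem_filter]
      exact ⟨mem_univ _, rfl⟩
    · intro x _ y _ h
      exact congrArg Prod.fst h
    · rintro ⟨x, y⟩ h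
      rw [mem_filter] at h
      exact ⟨x, mem_univ _, Prod.ext rfl h.2⟩
  have h4 : (univ.filter fun z : H × H => Q (gr f z.1 - gr f z.2)) ⊆
      (univ.filter fun z : H × H => z.1 = z.2) ∪
      (univ.filter fun z : H × H => z.1 ≠ z.2 ∧ Q (gr f z.1 - gr f z.2)) := by
    intro z hz
    rw [mem_filter] at hz
    rw [mem_union, mem_filter, mem_filter]
    by_cases h : z.1 = z.2
    · exact Or.inl ⟨hz.1, h⟩
    · exact Or.inr ⟨hz.1, h, hz.2⟩
  have h5 := (card_le_card h4).trans (card_union_le _ _)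
  omega

/-- the case `9 G = 0` -/
theorem no_four9 [Fintype H] [Fintype K] (hH : Fintype.card H = 3 ^ 6)
    (hK : Fintype.card K = 3 ^ 6) (f : H → K) (hf : IsPlanar f) (h9 : ∀ g : H × K, 9 • g = 0)
    (hP : Nat.card (Set.range fun g : H × K => 3 • g) = 3 ^ 4) : False := by
  have hp3 : Fact (Nat.Prime 3) := ⟨Nat.prime_three⟩
  have hG : Nat.card (H × K) = 3 ^ 12 := by
    rw [Nat.card_prod, Nat.card_eq_fintype_card, Nat.card_eq_fintype_card, hH, hK, ← pow_add]
  obtain ⟨C, hC, hA⟩ := slice_coord h9 hP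
  obtain ⟨Y, hY⟩ := light_coord hG h9 hP
  have hH' : Fintype.card H = 729 := by rw [hH]; norm_num
  have hCeq : ∀ x y : H, C (gr f x) = C (gr f y) ↔ 3 • (gr f x - gr f y) = 0 := by
    intro x y
    rw [← hC, map_sub, sub_eq_zero]
  refine Cfg4.false (X := H) (c := fun x => C (gr f x)) (Y := fun x => Y (gr f x)) ⟨hH', ?_, ?_, ?_⟩
  · intro As Ls hlen
    choose A hA using hA
    have h := lin_key (p := 3) (r := 6) (by norm_num) hH f hf
      (As.map fun a => (A a.1, a.2.val)) (Ls.map fun l => (l.1.comp Y, l.2)) (by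
        rw [List.length_map, List.length_map]
        omega)
    refine Eq.trans (sum_congr rfl fun x _ => ?_) h
    rw [List.map_map, List.map_map]
    congr 2
    · apply List.map_congr_left
      intro a _
      simp only [Function.comp_apply]
      rw [hA, ZMod.natCast_zmod_val]
  · intro a b hab
    have h := pairs_le hH' f hf (fun g => 3 • g = 0 ∧ dt a (Y g) = 0 ∧ dt b (Y g) = 0)
      ⟨smul_zero _, by rw [map_zero, map_zero], by rw [map_zero, map_zero]⟩ 729
      (by convert card_ind hG hP hY hab)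
    refine le_trans (card_le_card ?_) h
    intro z hz
    simp only [mem_filter, mem_univ, true_and] at hz ⊢
    refine ⟨(hCeq _ _).1 hz.1, ?_, ?_⟩
    · rw [map_sub, map_sub, sub_eq_zero]
      exact hz.2.1
    · rw [map_sub, map_sub, sub_eq_zero]
      exact hz.2.2
  · have h0 := Rank.card_ker hH hK hP
    have h1 : (univ.filter fun g : H × K => 3 • g = 0).card ≤ 6561 := by
      have h2 : (univ.filter fun g : H × K => 3 • g = 0).card * 3 ^ 4 = 3 ^ (2 * 6) := by
        convert h0
      omega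
    have h := pairs_le hH' f hf (fun g => 3 • g = 0) (smul_zero _) 6561 (by convert h1)
    refine le_trans (card_le_card ?_) h
    intro z hz
    simp only [mem_filter, mem_univ, true_and] at hz ⊢
    exact (hCeq _ _).1 hz

/-- if `3 ^ (e - 1) G` has at least 27 elements and `3 ^ e G = 0`, `e ≥ 3`, then `|3 G| ≥ 729` -/
theorem exp_two {G : Type*} [AddCommGroup G] [Finite G] {e : ℕ} (he : 3 ≤ e)
    (h0 : ∀ g : G, 3 ^ e • g = 0)
    (hB : 3 ^ 3 ≤ Nat.card (Set.range fun g : G => 3 ^ (e - 1) • g)) :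
    729 ≤ Nat.card (Set.range fun g : G => 3 • g) := by
  let S : AddSubgroup G := (nsmulAddMonoidHom (α := G) (3 ^ (e - 2))).range
  let φ : S →+ G := (nsmulAddMonoidHom (α := G) 3).comp S.subtype
  have he1 : 3 ^ (e - 1) = 3 * 3 ^ (e - 2) := by
    rw [← pow_succ']
    congr 1
    omega
  have hr : (φ.range : Set G) = Set.range fun g : G => 3 ^ (e - 1) • g := by
    ext x
    constructor
    · rintro ⟨⟨_, g, rfl⟩, rfl⟩
      refine ⟨g, ?_⟩
      show 3 ^ (e - 1) • g = 3 • (3 ^ (e - 2) • g)
      rw [smul_smul, he1]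
    · rintro ⟨g, rfl⟩
      refine ⟨⟨3 ^ (e - 2) • g, g, rfl⟩, ?_⟩
      show 3 • (3 ^ (e - 2) • g) = 3 ^ (e - 1) • g
      rw [smul_smul, he1]
  have hrc : Nat.card φ.range = Nat.card (Set.range fun g : G => 3 ^ (e - 1) • g) := by
    rw [← hr]
    rfl
  have h1 : Nat.card φ.ker * φ.ker.index = Nat.card S := AddSubgroup.card_mul_index _
  rw [AddSubgroup.index_ker, hrc] at h1
  have h2 : Nat.card (Set.range fun g : G => 3 ^ (e - 1) • g) ≤ Nat.card φ.ker := by
    refine Nat.card_le_card_of_injective (fun x => ⟨⟨x.1, ?_⟩, ?_⟩) ?_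
    · obtain ⟨g, hg⟩ := x.2
      refine ⟨3 • g, ?_⟩
      show 3 ^ (e - 2) • (3 • g) = x.1
      rw [smul_smul, mul_comm, ← he1]
      exact hg
    · rw [AddMonoidHom.mem_ker]
      obtain ⟨g, hg⟩ := x.2
      have hg' : 3 ^ (e - 1) • g = x.1 := hg
      show 3 • x.1 = 0
      rw [← hg', smul_smul, ← pow_succ', show e - 1 + 1 = e by omega]
      exact h0 g
    · intro x y hxy
      exact Subtype.ext (congrArg (fun z : φ.ker => z.1.1) hxy)
  have h3 : Nat.card S ≤ Nat.card (Set.range fun g : G => 3 • g) := by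
    refine Nat.card_mono (Set.toFinite _) ?_
    rintro _ ⟨g, rfl⟩
    refine ⟨3 ^ (e - 3) • g, ?_⟩
    show 3 • (3 ^ (e - 3) • g) = 3 ^ (e - 2) • g
    rw [smul_smul, ← pow_succ']
    congr 2
    omega
  nlinarith

/-- no planar function between groups of order `3 ^ 6` with `|3 G| = 3 ^ 4` -/
theorem no_four (hH : Nat.card H = 3 ^ 6) (hK : Nat.card K = 3 ^ 6) (f : H → K)
    (hf : IsPlanar f) (hP : Nat.card (Set.range fun g : H × K => 3 • g) = 3 ^ 4) : False := by
  have hp3 : Fact (Nat.Prime 3) := ⟨Nat.prime_three⟩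
  have : Finite H := Nat.finite_of_card_ne_zero (by rw [hH]; norm_num)
  have : Finite K := Nat.finite_of_card_ne_zero (by rw [hK]; norm_num)
  have := Fintype.ofFinite H
  have := Fintype.ofFinite K
  have hG : Nat.card (H × K) = 3 ^ (2 * 6) := by
    rw [Nat.card_prod, hH, hK, ← pow_add]
  obtain ⟨e, -, he⟩ := (Nat.dvd_prime_pow Nat.prime_three).1
    (show AddMonoid.exponent (H × K) ∣ 3 ^ (2 * 6) by
      rw [← hG]; exact AddGroup.exponent_dvd_nat_card)
  have h0 : ∀ g : H × K, 3 ^ e • g = 0 := fun g => by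
    rw [← he]; exact AddMonoid.exponent_nsmul_eq_zero g
  have he2 : 2 ≤ e := by
    by_contra hlt
    have h1 : ∀ g : H × K, 3 • g = 0 := by
      intro g
      have h2 : 3 ^ e ∣ 3 := by
        calc 3 ^ e ∣ 3 ^ 1 := pow_dvd_pow 3 (by omega)
          _ = 3 := pow_one 3
      obtain ⟨c, hc⟩ := h2
      have h3 : (3 ^ e * c) • g = 3 • g := congrArg (fun n : ℕ => n • g) hc.symm
      rw [← h3, mul_comm, mul_smul, h0, smul_zero]
    have h2 : (Set.range fun g : H × K => 3 • g) = {0} := by
      ext x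
      constructor
      · rintro ⟨g, rfl⟩
        exact h1 g
      · rintro rfl
        exact ⟨0, smul_zero _⟩
    rw [h2, Nat.card_unique] at hP
    norm_num at hP
  have hB := Pool.Agent.H38.PL3.main_C (show 3 ≤ 6 by omega) he2 hH hK f hf he
  have he3 : e = 2 := by
    by_contra hne
    have := exp_two (show 3 ≤ e by omega) h0 hB
    rw [hP] at this
    norm_num at this
  subst he3
  exact no_four9 (by rw [← Nat.card_eq_fintype_card, hH]) (by rw [← Nat.card_eq_fintype_card, hK])
    f hf (fun g => h0 g) hP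

end Pool.Agent.H38.K4
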