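import Pool.Agent.H38.K4.Quad
import Pool.Agent.H16.RB.Deg

/-!
# K4 module Cell: slices and their cells

`Cfg4 c Y`: 729 points `x` with slice coordinates `c x` and light coordinates `Y x` in `F_3 ^ 4`.  `sl4 c z` is a slice, `cell` a cell of a slice for two light functionals.
-/

set_option autoImplicit false

namespace Pool.Agent.H38.K4

open Finset Pool.Agent.H16.RB
open scoped Classical

/-- the functional with coefficients `a` -/
def dt (a : V) : V →+ ZMod 3 where
  toFun y := ∑ i, a i * y i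
  map_zero' := by simp
  map_add' x y := by
    rw [← sum_add_distrib]
    exact sum_congr rfl fun i _ => by rw [Pi.add_apply, mul_add]

theorem dt_apply (a y : V) : dt a y = ∑ i, a i * y i := rfl

theorem dt_add (a b y : V) : dt (a + b) y = dt a y + dt b y := by
  rw [dt_apply, dt_apply, dt_apply, ← sum_add_distrib]
  exact sum_congr rfl fun i _ => by rw [Pi.add_apply, add_mul]

theorem dt_smul (s : ZMod 3) (a y : V) : dt (s • a) y = s * dt a y := by
  rw [dt_apply, dt_apply, mul_sum]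
  exact sum_congr rfl fun i _ => by rw [Pi.smul_apply, smul_eq_mul, mul_assoc]

/-- independent vectors -/
def Ind (a b : V) : Prop := ∀ s t : ZMod 3, s • a + t • b = 0 → s = 0 ∧ t = 0

structure Cfg4 {X : Type*} [Fintype X] (c Y : X → V) : Prop where
  card : Fintype.card X = 729
  mom : ∀ As Ls : List ((V →+ ZMod 3) × ZMod 3), As.length + 3 * Ls.length < 18 →
    ∑ x, (As.map fun a => a.1 (c x) - a.2).prod * (Ls.map fun l => l.1 (Y x) - l.2).prod = 0
  en : ∀ a b : V, Ind a b → (univ.filter fun z : X × X => c z.1 = c z.2 ∧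
    dt a (Y z.1) = dt a (Y z.2) ∧ dt b (Y z.1) = dt b (Y z.2)).card ≤ 1457
  sq : (univ.filter fun z : X × X => c z.1 = c z.2).card ≤ 7289

variable {X : Type*} [Fintype X] {c Y : X → V}

/-- a slice -/
noncomputable def sl4 (c : X → V) (z : V) : Finset X := univ.filter fun x => c x = z

/-- a cell of a slice -/
noncomputable def cell (c Y : X → V) (a b z : V) (i j : ZMod 3) : ℕ :=
  ((sl4 c z).filter fun x => dt a (Y x) = i ∧ dt b (Y x) = j).card

/-- the common value of the cells modulo 3 -/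
noncomputable def qq (c Y : X → V) (a b z : V) : ZMod 3 :=
  ∑ x ∈ sl4 c z, dt a (Y x) ^ 2 * dt b (Y x) ^ 2

private theorem two_fac : ∀ u v : ZMod 3, (u - (v + 1)) * (u - (v + 2)) = if u = v then 2 else 0 := by
  decide

private theorem sixteen : (2 : ZMod 3) * (2 * (2 * 2)) = 1 := by decide

theorem Cfg4.kill (E : Cfg4 c Y) (z : V) (Ls : List ((V →+ ZMod 3) × ZMod 3))
    (hL : Ls.length ≤ 3) : ∑ x ∈ sl4 c z, (Ls.map fun l => l.1 (Y x) - l.2).prod = 0 := by
  let ev : Fin 4 → (V →+ ZMod 3) := fun i => Pi.evalAddMonoidHom (fun _ => ZMod 3) i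
  have h := E.mom [(ev 0, z 0 + 1), (ev 0, z 0 + 2), (ev 1, z 1 + 1), (ev 1, z 1 + 2),
    (ev 2, z 2 + 1), (ev 2, z 2 + 2), (ev 3, z 3 + 1), (ev 3, z 3 + 2)] Ls (by
      simp only [List.length_cons, List.length_nil]
      omega)
  rw [sl4, sum_filter]
  refine Eq.trans (sum_congr rfl fun x _ => ?_) h
  have e1 : ∀ i, ev i (c x) = c x i := fun i => rfl
  simp only [List.map_cons, List.map_nil, List.prod_cons, List.prod_nil, mul_one, e1]
  have e2 : (c x 0 - (z 0 + 1)) * ((c x 0 - (z 0 + 2)) * ((c x 1 - (z 1 + 1)) *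
      ((c x 1 - (z 1 + 2)) * ((c x 2 - (z 2 + 1)) * ((c x 2 - (z 2 + 2)) *
      ((c x 3 - (z 3 + 1)) * (c x 3 - (z 3 + 2)))))))) =
      (if c x 0 = z 0 then 2 else 0) * ((if c x 1 = z 1 then 2 else 0) *
      ((if c x 2 = z 2 then 2 else 0) * (if c x 3 = z 3 then 2 else 0))) := by
    rw [← two_fac, ← two_fac, ← two_fac, ← two_fac]
    ring
  rw [e2]
  by_cases hc : c x = z
  · rw [if_pos hc, hc, if_pos rfl, if_pos rfl, if_pos rfl, if_pos rfl, sixteen, one_mul]
  · rw [if_neg hc]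
    have : ∃ i, c x i ≠ z i := by
      by_contra hcon
      push Not at hcon
      exact hc (funext hcon)
    obtain ⟨i, hi⟩ := this
    fin_cases i
    · have hi : c x 0 ≠ z 0 := hi
      rw [if_neg hi]; ring
    · have hi : c x 1 ≠ z 1 := hi
      rw [if_neg hi]; ring
    · have hi : c x 2 ≠ z 2 := hi
      rw [if_neg hi]; ring
    · have hi : c x 3 ≠ z 3 := hi
      rw [if_neg hi]; ring

/-- monomials of degree at most 3 in two functionals -/
theorem Cfg4.mon (E : Cfg4 c Y) (a b z : V) (u w : ℕ) (h : u + w ≤ 3) :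
    ∑ x ∈ sl4 c z, dt a (Y x) ^ u * dt b (Y x) ^ w = 0 := by
  have h1 := E.kill z (List.replicate u (dt a, 0) ++ List.replicate w (dt b, 0)) (by simpa using h)
  simpa using h1

/-- monomials of degree at most 2 in two functionals times a third one -/
theorem Cfg4.mon' (E : Cfg4 c Y) (g a b z : V) (u w : ℕ) (h : u + w ≤ 2) :
    ∑ x ∈ sl4 c z, dt g (Y x) * (dt a (Y x) ^ u * dt b (Y x) ^ w) = 0 := by
  have h1 := E.kill z ((dt g, 0) :: (List.replicate u (dt a, 0) ++ List.replicate w (dt b, 0))) (by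
    simp only [List.length_cons, List.length_append, List.length_replicate]
    omega)
  simpa using h1

private theorem ind_cell : ∀ u v i j : ZMod 3,
    (if u = i ∧ v = j then (1 : ZMod 3) else 0) = (1 - (u - i) ^ 2) * (1 - (v - j) ^ 2) := by
  decide

theorem Cfg4.cell_eq (E : Cfg4 c Y) (a b z : V) (i j : ZMod 3) :
    (cell c Y a b z i j : ZMod 3) = qq c Y a b z := by
  have h1 : (cell c Y a b z i j : ZMod 3) = ∑ x ∈ sl4 c z,
      (1 - (dt a (Y x) - i) ^ 2) * (1 - (dt b (Y x) - j) ^ 2) := by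
    rw [cell, card_filter]
    push_cast
    exact sum_congr rfl fun x _ => ind_cell _ _ _ _
  have h2 : ∀ x, (1 - (dt a (Y x) - i) ^ 2) * (1 - (dt b (Y x) - j) ^ 2) =
      dt a (Y x) ^ 2 * dt b (Y x) ^ 2 +
      ((1 - i ^ 2) * (1 - j ^ 2) * (dt a (Y x) ^ 0 * dt b (Y x) ^ 0) +
      ((1 - i ^ 2) * (2 * j) * (dt a (Y x) ^ 0 * dt b (Y x) ^ 1) +
      (-(1 - i ^ 2) * (dt a (Y x) ^ 0 * dt b (Y x) ^ 2) +
      (2 * i * (1 - j ^ 2) * (dt a (Y x) ^ 1 * dt b (Y x) ^ 0) +
      (4 * i * j * (dt a (Y x) ^ 1 * dt b (Y x) ^ 1) +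
      (-(2 * i) * (dt a (Y x) ^ 1 * dt b (Y x) ^ 2) +
      (-(1 - j ^ 2) * (dt a (Y x) ^ 2 * dt b (Y x) ^ 0) +
      (-(2 * j) * (dt a (Y x) ^ 2 * dt b (Y x) ^ 1))))))))) := by
    intro x; ring
  rw [h1, sum_congr rfl fun x _ => h2 x]
  simp only [sum_add_distrib, ← mul_sum]
  rw [E.mon a b z 0 0 (by norm_num), E.mon a b z 0 1 (by norm_num), E.mon a b z 0 2 (by norm_num),
    E.mon a b z 1 0 (by norm_num), E.mon a b z 1 1 (by norm_num), E.mon a b z 1 2 (by norm_num),
    E.mon a b z 2 0 (by norm_num), E.mon a b z 2 1 (by norm_num), qq]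
  ring

/-- `qq` is quadratic in the slice -/
theorem Cfg4.dg (E : Cfg4 c Y) (a b : V) : Dg 2 (qq c Y a b) := by
  refine Dg.of_diffs 2 _ fun L hL x => ?_
  refine deg_of_kills (p := 3) (s := 4) (n := 6) (b := 2) (by norm_num) _ (fun M hM => ?_) L hL x
  have h := E.mom M [(dt a, 0), (dt a, 0), (dt b, 0), (dt b, 0)] (by
    simp only [List.length_cons, List.length_nil]
    omega)
  rw [← h, ← sum_fiberwise univ c]
  refine sum_congr rfl fun z _ => ?_
  rw [qq, sum_mul, sl4]
  refine sum_congr rfl fun x hx => ?_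
  rw [mem_filter] at hx
  rw [hx.2]
  simp only [List.map_cons, List.map_nil, List.prod_cons, List.prod_nil, sub_zero, mul_one]
  ring

/-- a slice is the union of its nine cells -/
theorem cell_sum (a b z : V) : ∑ i, ∑ j, cell c Y a b z i j = (sl4 c z).card := by
  rw [← sum_product' univ univ (fun i j => cell c Y a b z i j),
    card_eq_sum_card_fiberwise (f := fun x => (dt a (Y x), dt b (Y x))) (t := univ ×ˢ univ)
      (fun x _ => by simp)]
  refine sum_congr rfl fun y _ => ?_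
  rw [cell]
  congr 1
  ext x
  simp only [mem_filter, Prod.ext_iff]

end Pool.Agent.H38.K4
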