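import Mathlib

/-!
# K4 module En3: sum of squares of the cells of three functions
-/

set_option autoImplicit false

namespace Pool.Agent.H38.K4

open Finset

theorem en3 {X A B C : Type*} [Fintype X] [Fintype A] [Fintype B] [Fintype C] [DecidableEq A]
    [DecidableEq B] [DecidableEq C] (c1 : X → A) (c2 : X → B) (c3 : X → C) :
    ∑ a, ∑ b, ∑ d, ((univ.filter fun x => c1 x = a).filter fun x => c2 x = b ∧ c3 x = d).card ^ 2 =
      (univ.filter fun z : X × X => c1 z.1 = c1 z.2 ∧ c2 z.1 = c2 z.2 ∧ c3 z.1 = c3 z.2).card := by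
  have h1 : (univ.filter fun z : X × X => c1 z.1 = c1 z.2 ∧ c2 z.1 = c2 z.2 ∧ c3 z.1 = c3 z.2).card =
      ∑ w : A × B × C, ((univ.filter fun z : X × X => c1 z.1 = c1 z.2 ∧ c2 z.1 = c2 z.2 ∧
        c3 z.1 = c3 z.2).filter fun z => (c1 z.1, c2 z.1, c3 z.1) = w).card :=
    card_eq_sum_card_fiberwise fun _ _ => mem_coe.2 (mem_univ _)
  rw [h1, Fintype.sum_prod_type]
  refine sum_congr rfl fun a _ => ?_
  rw [Fintype.sum_prod_type]
  refine sum_congr rfl fun b _ => sum_congr rfl fun d _ => ?_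
  rw [sq, ← card_product]
  congr 1
  ext z
  simp only [mem_product, mem_filter, mem_univ, true_and, Prod.mk.injEq]
  constructor
  · rintro ⟨⟨h1, h2, h3⟩, h4, h5, h6⟩
    exact ⟨⟨h1.trans h4.symm, h2.trans h5.symm, h3.trans h6.symm⟩, h1, h2, h3⟩
  · rintro ⟨⟨h1, h2, h3⟩, h4, h5, h6⟩
    exact ⟨⟨h4, h5, h6⟩, h1.symm.trans h4, h2.symm.trans h5, h3.symm.trans h6⟩

theorem en1 {X A : Type*} [Fintype X] [Fintype A] [DecidableEq A] (c1 : X → A) :
    ∑ a, (univ.filter fun x => c1 x = a).card ^ 2 =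
      (univ.filter fun z : X × X => c1 z.1 = c1 z.2).card := by
  have h1 : (univ.filter fun z : X × X => c1 z.1 = c1 z.2).card =
      ∑ w : A, ((univ.filter fun z : X × X => c1 z.1 = c1 z.2).filter fun z => c1 z.1 = w).card :=
    card_eq_sum_card_fiberwise fun _ _ => mem_coe.2 (mem_univ _)
  rw [h1]
  refine sum_congr rfl fun a _ => ?_
  rw [sq, ← card_product]
  congr 1
  ext z
  simp only [mem_product, mem_filter, mem_univ, true_and]
  constructor
  · rintro ⟨h1, h4⟩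
    exact ⟨h1.trans h4.symm, h1⟩
  · rintro ⟨h1, h4⟩
    exact ⟨h4, h1.symm.trans h4⟩

/-- the final double counting: `N z` bounded by a function of the size of the slice -/
theorem final_count {Z : Type*} (U : Finset Z) (s N : Z → ℕ)
    (h1 : ∑ z ∈ U, s z = 729) (h2 : ∑ z ∈ U, s z ^ 2 ≤ 7289) (h3 : ∀ z ∈ U, 3 ∣ s z)
    (h0 : ∀ z ∈ U, s z < 9 → N z = 0) (h9 : ∀ z ∈ U, s z = 9 → N z ≤ 3888)
    (h12 : ∀ z ∈ U, N z ≤ 6240) : ∑ z ∈ U, N z < 336960 := by
  have hp : ∀ z ∈ U, (3 * N z : ℤ) ≤ 88 * (s z : ℤ) ^ 2 + 504 * s z := by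
    intro z hz
    have a0 := h0 z hz
    have a9 := h9 z hz
    have a12 := h12 z hz
    obtain ⟨k, hk⟩ := h3 z hz
    rw [hk] at a0 a9 ⊢
    rcases Nat.lt_or_ge k 3 with h | h
    · rw [a0 (by omega)]
      push_cast
      positivity
    · rcases Nat.eq_or_lt_of_le h with h | h
      · subst h
        have := a9 (by norm_num)
        push_cast
        have : (N z : ℤ) ≤ 3888 := by exact_mod_cast this
        linarith
      · have : (N z : ℤ) ≤ 6240 := by exact_mod_cast a12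
        have hk4 : (4 : ℤ) ≤ k := by exact_mod_cast h
        push_cast
        nlinarith
  have hs := sum_le_sum hp
  rw [sum_add_distrib, ← mul_sum, ← mul_sum, ← mul_sum] at hs
  have e1 : ∑ z ∈ U, (s z : ℤ) = 729 := by exact_mod_cast h1
  have e2 : ∑ z ∈ U, (s z : ℤ) ^ 2 ≤ 7289 := by exact_mod_cast h2
  rw [e1] at hs
  have e3 : (3 : ℤ) * ∑ z ∈ U, (N z : ℤ) ≤ 88 * 7289 + 504 * 729 := by linarith
  have e4 : ((∑ z ∈ U, N z : ℕ) : ℤ) = ∑ z ∈ U, (N z : ℤ) := by push_cast; rfl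
  rw [← e4] at e3
  omega

end Pool.Agent.H38.K4
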