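import Pool.Agent.H38.K4.Nine
import Pool.Agent.H38.K4.En3

/-!
# K4 module Core: the contradiction
-/

set_option autoImplicit false

namespace Pool.Agent.H38.K4

open Finset Pool.Agent.H16.RB
open scoped Classical

theorem ind_iff {a : V} (ha : a ≠ 0) (b : V) : Ind a b ↔ b ∉ univ.image fun s : ZMod 3 => s • a := by
  rw [mem_image]
  constructor
  · rintro h ⟨s, -, rfl⟩
    have := (h (-s) 1 (by rw [one_smul, neg_smul, neg_add_cancel])).2
    exact one_ne_zero this
  · intro h s t hst
    have ht : t = 0 := by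
      by_contra ht
      apply h
      refine ⟨-(t⁻¹ * s), mem_univ _, ?_⟩
      have h1 : t • b = -(s • a) := by
        rw [eq_neg_iff_add_eq_zero, add_comm]
        exact hst
      have h2 : b = t⁻¹ • (t • b) := by rw [smul_smul, inv_mul_cancel₀ ht, one_smul]
      rw [h2, h1, smul_neg, smul_smul, neg_smul]
    refine ⟨?_, ht⟩
    by_contra hs
    rw [ht, zero_smul, add_zero] at hst
    apply ha
    rw [← one_smul (ZMod 3) a, ← inv_mul_cancel₀ hs, ← smul_smul, hst, smul_zero]

theorem ind_card : (univ.filter fun y : V × V => Ind y.1 y.2).card = 6240 := by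
  have h0 : ∀ b : V, ¬ Ind 0 b := by
    intro b h
    have := (h 1 0 (by simp)).1
    exact one_ne_zero this
  have h1 : ∀ a : V, a ≠ 0 → (univ.filter fun b : V => Ind a b).card = 78 := by
    intro a ha
    have e : (univ.filter fun b : V => Ind a b) = (univ.image fun s : ZMod 3 => s • a)ᶜ := by
      ext b
      rw [mem_filter, mem_compl, ind_iff ha]
      simp only [mem_univ, true_and]
    have h2 : (univ.image fun s : ZMod 3 => s • a).card = 3 := by
      rw [card_image_of_injective, card_univ, ZMod.card]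
      intro s t hst
      exact smul_left_injective (ZMod 3) ha hst
    rw [e, card_compl, h2, card_V]
  have h3 : (univ.filter fun y : V × V => Ind y.1 y.2).card =
      ∑ a : V, (univ.filter fun b : V => Ind a b).card := by
    rw [card_filter, Fintype.sum_prod_type]
    exact sum_congr rfl fun a _ => (card_filter _ _).symm
  rw [h3, ← add_sum_erase univ _ (mem_univ (0 : V)),
    sum_congr rfl fun a ha => h1 a (ne_of_mem_erase ha), sum_const,
    card_erase_of_mem (mem_univ _), card_univ, card_V, filter_false_of_mem fun b _ => h0 b,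
    card_empty, smul_eq_mul]

variable {X : Type*} [Fintype X] {c Y : X → V}

theorem Cfg4.sum_s (E : Cfg4 c Y) : ∑ z, (sl4 c z).card = 729 := by
  rw [← E.card, ← card_univ]
  exact (card_eq_sum_card_fiberwise fun _ _ => mem_coe.2 (mem_univ _)).symm

theorem Cfg4.sum_s2 (E : Cfg4 c Y) : ∑ z, (sl4 c z).card ^ 2 ≤ 7289 := by
  have h := en1 c
  exact le_trans (le_of_eq h) E.sq

theorem Cfg4.three_dvd (E : Cfg4 c Y) (z : V) : 3 ∣ (sl4 c z).card := by
  have h := E.kill z [] (by simp)
  simp only [List.map_nil, List.prod_nil, sum_const, nsmul_eq_mul, mul_one] at h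
  exact (ZMod.natCast_eq_zero_iff _ _).1 h

theorem Cfg4.big (E : Cfg4 c Y) : (univ.filter fun z => 18 ≤ (sl4 c z).card).card ≤ 8 := by
  have h1 : ∀ z : V, 18 * (sl4 c z).card + (if 18 ≤ (sl4 c z).card then 81 else 0) ≤
      (sl4 c z).card ^ 2 + 81 := by
    intro z
    generalize (sl4 c z).card = n
    split_ifs with h
    · obtain ⟨m, rfl⟩ := Nat.exists_eq_add_of_le h
      nlinarith
    · have : (n : ℤ) ^ 2 + 81 - 18 * n = (n - 9) ^ 2 := by ring
      have h2 := sq_nonneg ((n : ℤ) - 9)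
      zify
      linarith
  have h2 := sum_le_sum fun z (_ : z ∈ (univ : Finset V)) => h1 z
  rw [sum_add_distrib, sum_add_distrib, ← mul_sum, E.sum_s, sum_const, card_univ, card_V,
    smul_eq_mul, ← sum_filter, sum_const, smul_eq_mul] at h2
  have h3 := E.sum_s2
  omega

private theorem mod_cell {N : ℕ} {q : ZMod 3} (h : (N : ZMod 3) = q) :
    (q = 0 → 3 * N ≤ N ^ 2) ∧ (q = 1 → 1 ≤ N ∧ 5 * N ≤ N ^ 2 + 4) ∧
      (q = 2 → 2 ≤ N ∧ 7 * N ≤ N ^ 2 + 10) := by
  refine ⟨?_, ?_, ?_⟩
  · rintro rfl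
    obtain ⟨k, rfl⟩ := (ZMod.natCast_eq_zero_iff _ _).1 h
    rcases Nat.eq_zero_or_pos k with rfl | hk
    · simp
    · nlinarith
  · rintro rfl
    have h1 : N % 3 = 1 := by
      have := (ZMod.natCast_eq_natCast_iff' N 1 3).1 (by simpa using h)
      simpa using this
    obtain ⟨k, rfl⟩ : ∃ k, N = 3 * k + 1 := ⟨N / 3, by omega⟩
    refine ⟨by omega, ?_⟩
    rcases Nat.lt_or_ge k 2 with hk | hk
    · interval_cases k <;> norm_num
    · nlinarith
  · rintro rfl
    have h1 : N % 3 = 2 := by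
      have := (ZMod.natCast_eq_natCast_iff' N 2 3).1 (by simpa using h)
      simpa using this
    obtain ⟨k, rfl⟩ : ∃ k, N = 3 * k + 2 := ⟨N / 3, by omega⟩
    refine ⟨by omega, ?_⟩
    rcases Nat.lt_or_ge k 2 with hk | hk
    · interval_cases k <;> norm_num
    · nlinarith

private theorem nine_sum (g : ZMod 3 → ZMod 3 → ℕ) : ∑ i, ∑ j, g i j =
    g 0 0 + g 0 1 + g 0 2 + (g 1 0 + g 1 1 + g 1 2) + (g 2 0 + g 2 1 + g 2 2) := by
  have h : ∀ f : ZMod 3 → ℕ, ∑ a, f a = f 0 + f 1 + f 2 := fun f => Fin.sum_univ_three f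
  rw [h, h, h, h]

theorem Cfg4.point (E : Cfg4 c Y) (a b z : V) :
    3 * (sl4 c z).card ≤ ∑ i, ∑ j, cell c Y a b z i j ^ 2 +
      (if qq c Y a b z ≠ 0 then 18 else 0) := by
  rw [← cell_sum (c := c) (Y := Y) a b z, nine_sum, nine_sum]
  have h := fun i j => mod_cell (E.cell_eq a b z i j)
  have h00 := h 0 0
  have h01 := h 0 1
  have h02 := h 0 2
  have h10 := h 1 0
  have h11 := h 1 1
  have h12 := h 1 2
  have h20 := h 2 0
  have h21 := h 2 1
  have h22 := h 2 2
  generalize cell c Y a b z 0 0 = n00 at *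
  generalize cell c Y a b z 0 1 = n01 at *
  generalize cell c Y a b z 0 2 = n02 at *
  generalize cell c Y a b z 1 0 = n10 at *
  generalize cell c Y a b z 1 1 = n11 at *
  generalize cell c Y a b z 1 2 = n12 at *
  generalize cell c Y a b z 2 0 = n20 at *
  generalize cell c Y a b z 2 1 = n21 at *
  generalize cell c Y a b z 2 2 = n22 at *
  rcases t3 (qq c Y a b z) with hq | hq | hq
  · have a00 := h00.1 hq
    have a01 := h01.1 hq
    have a02 := h02.1 hq
    have a10 := h10.1 hq
    have a11 := h11.1 hq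
    have a12 := h12.1 hq
    have a20 := h20.1 hq
    have a21 := h21.1 hq
    have a22 := h22.1 hq
    rw [if_neg (by rw [hq]; exact fun h => h rfl)]
    linarith
  · have a00 := h00.2.1 hq
    have a01 := h01.2.1 hq
    have a02 := h02.2.1 hq
    have a10 := h10.2.1 hq
    have a11 := h11.2.1 hq
    have a12 := h12.2.1 hq
    have a20 := h20.2.1 hq
    have a21 := h21.2.1 hq
    have a22 := h22.2.1 hq
    rw [if_pos (by rw [hq]; exact one_ne_zero)]
    linarith [a00.1, a00.2, a01.1, a01.2, a02.1, a02.2, a10.1, a10.2, a11.1, a11.2, a12.1, a12.2,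
      a20.1, a20.2, a21.1, a21.2, a22.1, a22.2]
  · have a00 := h00.2.2 hq
    have a01 := h01.2.2 hq
    have a02 := h02.2.2 hq
    have a10 := h10.2.2 hq
    have a11 := h11.2.2 hq
    have a12 := h12.2.2 hq
    have a20 := h20.2.2 hq
    have a21 := h21.2.2 hq
    have a22 := h22.2.2 hq
    have h2 : (2 : ZMod 3) ≠ 0 := by decide
    rw [if_pos (by rw [hq]; exact h2)]
    linarith [a00.1, a00.2, a01.1, a01.2, a02.1, a02.2, a10.1, a10.2, a11.1, a11.2, a12.1, a12.2,
      a20.1, a20.2, a21.1, a21.2, a22.1, a22.2]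

theorem Cfg4.small (E : Cfg4 c Y) {a b z : V} (h : qq c Y a b z ≠ 0) : 9 ≤ (sl4 c z).card := by
  rw [← cell_sum (c := c) (Y := Y) a b z, nine_sum]
  have h1 := fun i j => E.cell_pos h i j
  have h00 := h1 0 0
  have h01 := h1 0 1
  have h02 := h1 0 2
  have h10 := h1 1 0
  have h11 := h1 1 1
  have h12 := h1 1 2
  have h20 := h1 2 0
  have h21 := h1 2 1
  have h22 := h1 2 2
  omega

theorem Cfg4.two_big (E : Cfg4 c Y) {a b z : V} (h : qq c Y a b z = 2) :
    18 ≤ (sl4 c z).card := by
  rw [← cell_sum (c := c) (Y := Y) a b z, nine_sum]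
  have h1 := fun i j => ((mod_cell (E.cell_eq a b z i j)).2.2 h).1
  have h00 := h1 0 0
  have h01 := h1 0 1
  have h02 := h1 0 2
  have h10 := h1 1 0
  have h11 := h1 1 1
  have h12 := h1 1 2
  have h20 := h1 2 0
  have h21 := h1 2 1
  have h22 := h1 2 2
  omega

theorem Cfg4.energy (E : Cfg4 c Y) {a b : V} (hab : Ind a b) :
    ∑ z, ∑ i, ∑ j, cell c Y a b z i j ^ 2 ≤ 1457 :=
  le_trans (le_of_eq (en3 c (fun x => dt a (Y x)) (fun x => dt b (Y x)))) (E.en a b hab)

theorem Cfg4.fifty_four (E : Cfg4 c Y) {a b : V} (hab : Ind a b) :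
    54 ≤ (univ.filter fun z => qq c Y a b z ≠ 0).card := by
  refine quad_count (E.dg a b) ?_ ?_
  · refine le_trans (card_le_card ?_) E.big
    intro z hz
    rw [mem_filter] at hz ⊢
    exact ⟨mem_univ _, E.two_big hz.2⟩
  · have h1 := sum_le_sum fun z (_ : z ∈ (univ : Finset V)) => E.point a b z
    rw [← mul_sum, E.sum_s, sum_add_distrib, ← sum_filter, sum_const, smul_eq_mul] at h1
    have h3 : 3 * 729 ≤ 1457 + (univ.filter fun z => qq c Y a b z ≠ 0).card * 18 :=
      h1.trans (Nat.add_le_add_right (E.energy hab) _)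
    generalize (univ.filter fun z => qq c Y a b z ≠ 0).card = m at h3 ⊢
    omega

end Pool.Agent.H38.K4
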