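import Pool.Agent.H38.K4.Core

/-!
# K4 module Core2: the contradiction, second part
-/

set_option autoImplicit false

namespace Pool.Agent.H38.K4

open Finset Pool.Agent.H16.RB
open scoped Classical

variable {X : Type*} [Fintype X] {c Y : X → V}

/-- double counting of pairs -/
theorem double {A B : Type*} (S : Finset A) (T : Finset B) (R : A → B → Prop) :
    ∑ a ∈ S, (T.filter fun b => R a b).card = ∑ b ∈ T, (S.filter fun a => R a b).card := by
  simp only [card_filter]
  exact sum_comm

set_option maxRecDepth 100000 in
theorem Cfg4.false (E : Cfg4 c Y) : False := by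
  obtain ⟨I, hI⟩ : ∃ I : Finset (V × V), I = univ.filter fun y => Ind y.1 y.2 := ⟨_, rfl⟩
  have hIc : I.card = 6240 := by rw [hI]; exact ind_card
  have h1 : ∑ z, (I.filter fun y => NZ c Y z y).card =
      ∑ y ∈ I, (univ.filter fun z => NZ c Y z y).card := double univ I (NZ c Y)
  have h2 : ∀ y ∈ I, 54 ≤ (univ.filter fun z => NZ c Y z y).card := by
    intro y hy
    rw [hI, mem_filter] at hy
    refine le_trans (E.fifty_four hy.2) (card_le_card ?_)
    intro z hz
    rw [mem_filter] at hz ⊢
    exact ⟨hz.1, hz.2⟩
  have h3 : 6240 * 54 ≤ ∑ y ∈ I, (univ.filter fun z => NZ c Y z y).card := by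
    rw [← hIc, ← smul_eq_mul]
    exact card_nsmul_le_sum _ _ _ h2
  have h4 : ∑ z, (I.filter fun y => NZ c Y z y).card < 336960 := by
    refine final_count univ (fun z => (sl4 c z).card) _ E.sum_s E.sum_s2
      (fun z _ => E.three_dvd z) ?_ ?_ ?_
    · intro z _ hz
      rw [card_eq_zero, filter_eq_empty_iff]
      intro y _ hy
      have := E.small hy
      have hz : (sl4 c z).card < 9 := hz
      omega
    · intro z _ hz
      refine le_trans (card_le_card ?_) (E.nine_le hz)
      intro y hy
      rw [mem_filter] at hy ⊢
      exact ⟨mem_univ _, hy.2⟩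
    · intro z _
      rw [← hIc]
      exact card_le_card (filter_subset _ _)
  omega

end Pool.Agent.H38.K4
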