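import Pool.Agent.H16.RB.RM
import Pool.Agent.H16.RB.Diff

/-!
# K4 (MP_460e77_co, helper38): the order 3 ^ 6, case kappa = 4: functions of small degree

`Dg n φ`: all differences of order `n + 1` of `φ` vanish.  `warning`: a function on `F_3 ^ 4` with vanishing third differences which takes the value 2 takes it at least 9 times.
-/

set_option autoImplicit false

namespace Pool.Agent.H38.K4

open Finset Pool.Agent.H16.RB

/-- the space -/
abbrev V := Fin 4 → ZMod 3

/-- all differences of order `n + 1` vanish -/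
def Dg : ℕ → (V → ZMod 3) → Prop
  | 0, φ => ∀ e x, φ (x + e) = φ x
  | n + 1, φ => ∀ e, Dg n (fun x => φ (x + e) - φ x)

theorem Dg.zero : ∀ n : ℕ, Dg n (fun _ => 0)
  | 0 => fun _ _ => rfl
  | n + 1 => fun _ => by simpa using Dg.zero n

theorem Dg.add {φ ψ : V → ZMod 3} : ∀ {n : ℕ}, Dg n φ → Dg n ψ → Dg n (fun x => φ x + ψ x)
  | 0, h1, h2 => fun e x => by
      show φ (x + e) + ψ (x + e) = φ x + ψ x
      rw [h1 e x, h2 e x]
  | n + 1, h1, h2 => fun e => by
      have h := Dg.add (h1 e) (h2 e)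
      have e1 : (fun x => (φ (x + e) + ψ (x + e)) - (φ x + ψ x)) =
          fun x => (φ (x + e) - φ x) + (ψ (x + e) - ψ x) := by
        funext x; ring
      show Dg n (fun x => (φ (x + e) + ψ (x + e)) - (φ x + ψ x))
      rw [e1]
      exact h

theorem Dg.neg {φ : V → ZMod 3} : ∀ {n : ℕ}, Dg n φ → Dg n (fun x => - φ x)
  | 0, h1 => fun e x => by
      show - φ (x + e) = - φ x
      rw [h1 e x]
  | n + 1, h1 => fun e => by
      have h := Dg.neg (h1 e)
      have e1 : (fun x => (- φ (x + e)) - (- φ x)) = fun x => - (φ (x + e) - φ x) := by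
        funext x; ring
      show Dg n (fun x => (- φ (x + e)) - (- φ x))
      rw [e1]
      exact h

theorem Dg.shift : ∀ {n : ℕ} {φ : V → ZMod 3} (e : V), Dg n φ → Dg n (fun x => φ (x + e))
  | 0, φ, e, h => fun e' x => by
      show φ (x + e' + e) = φ (x + e)
      rw [h e (x + e'), h e' x, h e x]
  | n + 1, φ, e, h => fun e' => by
      have h1 := Dg.shift e (h e')
      have e1 : (fun x => φ (x + e' + e) - φ (x + e)) = fun x => φ (x + e + e') - φ (x + e) := by
        funext x; rw [add_right_comm]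
      show Dg n (fun x => φ (x + e' + e) - φ (x + e))
      rw [e1]
      exact h1

theorem Dg.succ : ∀ {n : ℕ} {φ : V → ZMod 3}, Dg n φ → Dg (n + 1) φ
  | 0, φ, h => fun e => by
      have : (fun x => φ (x + e) - φ x) = fun _ => 0 := by
        funext x; rw [h e x, sub_self]
      show Dg 0 (fun x => φ (x + e) - φ x)
      rw [this]
      exact Dg.zero 0
  | _ + 1, _, h => fun e => Dg.succ (h e)

theorem Dg.mono {n m : ℕ} (h : n ≤ m) {φ : V → ZMod 3} (hφ : Dg n φ) : Dg m φ := by
  induction m, h using Nat.le_induction with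
  | base => exact hφ
  | succ m _ ih => exact ih.succ

theorem Dg.mul : ∀ (N m n : ℕ) (φ ψ : V → ZMod 3), m + n = N → Dg m φ → Dg n ψ →
    Dg N (fun x => φ x * ψ x)
  | 0, m, n, φ, ψ, h, h1, h2 => by
      obtain rfl : m = 0 := by omega
      obtain rfl : n = 0 := by omega
      intro e x
      show φ (x + e) * ψ (x + e) = φ x * ψ x
      rw [h1 e x, h2 e x]
  | N + 1, m, n, φ, ψ, h, h1, h2 => by
      intro e
      have e1 : (fun x => φ (x + e) * ψ (x + e) - φ x * ψ x) =
          fun x => (φ (x + e) - φ x) * ψ (x + e) + φ x * (ψ (x + e) - ψ x) := by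
        funext x; ring
      show Dg N (fun x => φ (x + e) * ψ (x + e) - φ x * ψ x)
      rw [e1]
      refine Dg.add ?_ ?_
      · rcases m with _ | m
        · have : (fun x => (φ (x + e) - φ x) * ψ (x + e)) = fun _ => 0 := by
            funext x; rw [h1 e x, sub_self, zero_mul]
          rw [this]
          exact Dg.zero N
        · exact Dg.mul N m n _ _ (by omega) (h1 e) (Dg.shift e h2)
      · rcases n with _ | n
        · have : (fun x => φ x * (ψ (x + e) - ψ x)) = fun _ => 0 := by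
            funext x; rw [h2 e x, sub_self, mul_zero]
          rw [this]
          exact Dg.zero N
        · exact Dg.mul N m n _ _ (by omega) h1 (h2 e)

theorem Dg.lin (l : V →+ ZMod 3) (c : ZMod 3) : Dg 1 (fun x => l x - c) := by
  intro e e' x
  show l (x + e' + e) - c - (l (x + e') - c) = l (x + e) - c - (l x - c)
  rw [map_add, map_add, map_add]
  ring

theorem Dg.list : ∀ (L : List ((V →+ ZMod 3) × ZMod 3)),
    Dg L.length (fun x => (L.map fun l => l.1 x - l.2).prod)
  | [] => fun _ _ => rfl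
  | l :: L => by
      have h := Dg.mul (L.length + 1) 1 L.length _ _ (by omega) (Dg.lin l.1 l.2) (Dg.list L)
      simpa using h

/-- sum over a line -/
def ln (e : V) (φ : V → ZMod 3) (x : V) : ZMod 3 := φ x + φ (x + e) + φ (x + e + e)

theorem ln_eq (e : V) (φ : V → ZMod 3) (x : V) :
    ln e φ x = (φ (x + e + e) - φ (x + e)) - (φ (x + e) - φ x) := by
  have h3 : (3 : ZMod 3) = 0 := rfl
  rw [ln]
  linear_combination (φ (x + e)) * h3

theorem Dg.ln_two {n : ℕ} {φ : V → ZMod 3} (e : V) (h : Dg (n + 2) φ) : Dg n (ln e φ) := by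
  have h1 : Dg n (fun x => (φ (x + e + e) - φ (x + e)) - (φ (x + e) - φ x)) := h e e
  have : ln e φ = fun x => (φ (x + e + e) - φ (x + e)) - (φ (x + e) - φ x) := by
    funext x; exact ln_eq e φ x
  rw [this]
  exact h1

theorem Dg.ln_one {φ : V → ZMod 3} (e : V) (h : Dg 1 φ) (x : V) : ln e φ x = 0 := by
  rw [ln_eq]
  have h1 := h e e x
  simp only at h1
  rw [h1, sub_self]

/-- coordinates -/
private def quadr : V ≃ ZMod 3 × ZMod 3 × ZMod 3 × ZMod 3 where
  toFun x := (x 3, x 2, x 1, x 0)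
  invFun y := ![y.2.2.2, y.2.2.1, y.2.1, y.1]
  left_inv x := by
    funext i
    fin_cases i <;> rfl
  right_inv y := by
    obtain ⟨a, b, c, d⟩ := y
    rfl

private theorem sum3 (g : ZMod 3 → ZMod 3) : ∑ a, g a = g 0 + g 1 + g 2 :=
  Fin.sum_univ_three g

theorem sum_zero {φ : V → ZMod 3} (h : Dg 7 φ) : ∑ x, φ x = 0 := by
  set e0 : V := ![1, 0, 0, 0] with he0
  set e1 : V := ![0, 1, 0, 0] with he1
  set e2 : V := ![0, 0, 1, 0] with he2
  set e3 : V := ![0, 0, 0, 1] with he3
  have h1 : Dg 5 (ln e0 φ) := Dg.ln_two (n := 5) e0 h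
  have h2 : Dg 3 (ln e1 (ln e0 φ)) := Dg.ln_two (n := 3) e1 h1
  have h3 : Dg 1 (ln e2 (ln e1 (ln e0 φ))) := Dg.ln_two (n := 1) e2 h2
  have h4 := Dg.ln_one e3 h3 0
  rw [← h4]
  have a0 : ∀ b c d : ZMod 3, ∀ ψ : V → ZMod 3, ∑ a, ψ ![a, b, c, d] = ln e0 ψ ![0, b, c, d] := by
    intro b c d ψ
    have t1 : (![0, b, c, d] : V) + e0 = ![1, b, c, d] := by
      funext i; fin_cases i <;> simp [he0]
    have t2 : (![1, b, c, d] : V) + e0 = ![2, b, c, d] := by
      funext i; fin_cases i <;> simp [he0]; rfl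
    rw [sum3, ln, t1, t2]
  have a1 : ∀ c d : ZMod 3, ∀ ψ : V → ZMod 3, ∑ b, ψ ![0, b, c, d] = ln e1 ψ ![0, 0, c, d] := by
    intro c d ψ
    have t1 : (![0, 0, c, d] : V) + e1 = ![0, 1, c, d] := by
      funext i; fin_cases i <;> simp [he1]
    have t2 : (![0, 1, c, d] : V) + e1 = ![0, 2, c, d] := by
      funext i; fin_cases i <;> simp [he1]; rfl
    rw [sum3, ln, t1, t2]
  have a2 : ∀ d : ZMod 3, ∀ ψ : V → ZMod 3, ∑ c, ψ ![0, 0, c, d] = ln e2 ψ ![0, 0, 0, d] := by
    intro d ψ
    have t1 : (![0, 0, 0, d] : V) + e2 = ![0, 0, 1, d] := by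
      funext i; fin_cases i <;> simp [he2]
    have t2 : (![0, 0, 1, d] : V) + e2 = ![0, 0, 2, d] := by
      funext i; fin_cases i <;> simp [he2]; rfl
    rw [sum3, ln, t1, t2]
  have a3 : ∀ ψ : V → ZMod 3, ∑ d, ψ ![0, 0, 0, d] = ln e3 ψ 0 := by
    intro ψ
    have t0 : (![0, 0, 0, 0] : V) = 0 := by
      funext i; fin_cases i <;> rfl
    have t1 : (0 : V) + e3 = ![0, 0, 0, 1] := by
      funext i; fin_cases i <;> simp [he3]
    have t2 : (![0, 0, 0, 1] : V) + e3 = ![0, 0, 0, 2] := by
      funext i; fin_cases i <;> simp [he3]; rfl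
    rw [sum3, ln, t1, t2, t0]
  rw [← Equiv.sum_comp quadr.symm, Fintype.sum_prod_type]
  simp only [Fintype.sum_prod_type]
  have e : ∀ d c b a : ZMod 3, φ (quadr.symm (d, c, b, a)) = φ ![a, b, c, d] :=
    fun _ _ _ _ => rfl
  simp only [e, a0]
  simp only [a1]
  simp only [a2]
  exact a3 _

theorem t3 : ∀ t : ZMod 3, t = 0 ∨ t = 1 ∨ t = 2 := by decide

private theorem t02 : ¬ (0 : ZMod 3) = 2 := by decide

private theorem t12 : ¬ (1 : ZMod 3) = 2 := by decide

private theorem t2 : ∀ t : ZMod 3, 2 * t = 0 → t = 0 := by decide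

open scoped Classical in
/-- a function with vanishing third differences which takes the value 2 takes it at least 9 times -/
theorem warning {q : V → ZMod 3} (hq : Dg 2 q) {z0 : V} (h0 : q z0 = 2) :
    9 ≤ (univ.filter fun z => q z = 2).card := by
  have hK : Kills 3 (fun z : V => z) (univ.filter fun z => q z = 2) 4 := by
    intro L hL
    have h1 : Dg 4 (fun x => q x * q x) := Dg.mul 4 2 2 q q rfl hq hq
    have h2 : Dg 4 (fun x => q x * q x + - q x) := Dg.add h1 (Dg.neg (Dg.mono (by omega) hq))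
    have h3 : Dg 7 (fun x => (q x * q x + - q x) * (L.map fun l => l.1 x - l.2).prod) :=
      Dg.mul 7 4 3 _ _ rfl h2 (Dg.mono (by omega) (Dg.list L))
    have h4 := sum_zero h3
    have h5 : ∑ x, (q x * q x + - q x) * (L.map fun l => l.1 x - l.2).prod =
        2 * ∑ x ∈ univ.filter (fun z => q z = 2), (L.map fun l => l.1 x - l.2).prod := by
      rw [mul_sum, sum_filter]
      refine sum_congr rfl fun x _ => ?_
      rcases t3 (q x) with h6 | h6 | h6
      · rw [h6, if_neg t02]
        ring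
      · rw [h6, if_neg t12]
        ring
      · rw [h6, if_pos rfl]
        ring
    rw [h5] at h4
    exact t2 _ h4
  have hz : z0 ∈ univ.filter fun z => q z = 2 := by
    rw [mem_filter]; exact ⟨mem_univ _, h0⟩
  have hcls : cls 3 (fun z : V => z) (univ.filter fun z => q z = 2) z0 = {z0} := by
    ext x
    rw [mem_singleton, cls, mem_filter]
    constructor
    · rintro ⟨-, h⟩
      funext i
      exact h (Pi.evalAddMonoidHom (fun _ => ZMod 3) i)
    · rintro rfl
      exact ⟨hz, fun _ => rfl⟩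
  have := rm (p := 3) (n := 4) (a := 2) (j := 0) (by norm_num) (by norm_num) (fun z : V => z) _ hK
    z0 hz (by rw [hcls, card_singleton]; decide)
  simpa using this

end Pool.Agent.H38.K4
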