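import Pool.Agent.H16.RB.Key

/-!
# K4 module Lin: first digits of homomorphisms to `ZMod (p ^ 2)` cost 1

The proof of `key3` (Pool/Agent/H38/T35/Key3.lean): a factor `z ^ (a (gr f x)).val - z ^ w`, `z` a primitive `p ^ 2`-th root of unity, is `z - 1` times a number which is
`(a (gr f x)).val - w` modulo `z - 1`; a factor for a homomorphism to `ZMod p` costs `p` powers of `z - 1`.
-/

set_option autoImplicit false

namespace Pool.Agent.H38.K4

open Finset NumberField Pool.Agent.H88.Pl Pool.Agent.H16.RB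
open scoped Classical

theorem lin_key {p r : ℕ} [Fact p.Prime] (hp : p ≠ 2) {H K : Type*} [AddCommGroup H]
    [AddCommGroup K] [Fintype H] [Fintype K] (hH : Fintype.card H = p ^ r) (f : H → K)
    (hf : IsPlanar f) (As : List ((H × K →+ ZMod (p ^ 2)) × ℕ))
    (Ls : List ((H × K →+ ZMod p) × ZMod p))
    (hn : 2 * (As.length + p * Ls.length) < r * p * (p - 1)) :
    ∑ x, (As.map fun a => ((a.1 (gr f x)).val : ZMod p) - (a.2 : ZMod p)).prod *
      (Ls.map fun l => l.1 (gr f x) - l.2).prod = 0 := by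
  have hpp : p.Prime := Fact.out
  have hpos : 0 < p := hpp.pos
  have hp1 : 1 < p := hpp.one_lt
  have hnz : p ^ (1 + 1) ≠ 0 := pow_ne_zero _ hpp.ne_zero
  have : NeZero (p ^ (1 + 1)) := ⟨hnz⟩
  let L := CyclotomicField (p ^ (1 + 1)) ℚ
  have hL : IsCyclotomicExtension {p ^ (1 + 1)} ℚ L := CyclotomicField.isCyclotomicExtension _ _
  have hL2 : IsCyclotomicExtension {p ^ 2} ℚ L := hL
  have : NumberField L := IsCyclotomicExtension.numberField {p ^ (1 + 1)} ℚ L
  let ζ : L := IsCyclotomicExtension.zeta (p ^ (1 + 1)) ℚ L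
  have hζ : IsPrimitiveRoot ζ (p ^ (1 + 1)) := IsCyclotomicExtension.zeta_spec _ _ _
  have hzp : IsPrimitiveRoot hζ.toInteger (p ^ (1 + 1)) := hζ.toInteger_isPrimitiveRoot
  set z : 𝓞 L := hζ.toInteger with hz
  have hzp2 : IsPrimitiveRoot z (p ^ 2) := hzp
  have hz1 : z ^ (p ^ (1 + 1)) = 1 := hzp.pow_eq_one
  obtain ⟨M, hM⟩ : ∃ M, 2 * M = r * (p ^ 1 * (p - 1)) := by
    have h1 : Even (p - 1) := (hpp.odd_of_ne_two hp).tsub_odd odd_one
    obtain ⟨c, hc⟩ := h1
    exact ⟨r * (p ^ 1 * c), by rw [hc]; ring⟩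
  -- fine functions
  let fine : (H → 𝓞 L) → Prop := fun F =>
    ∀ b : H × K →+ ZMod (p ^ (1 + 1)), (z - 1) ^ M ∣ ∑ x, z ^ (b (gr f x)).val * F x
  have fine_one : fine (fun _ => 1) := by
    intro b
    simp only [mul_one]
    exact val_sum hp hH f hf hζ b M hM
  have fine_step : ∀ (F : H → 𝓞 L) (b : H × K →+ ZMod (p ^ (1 + 1))) (c : 𝓞 L), fine F →
      fine (fun x => F x * (z ^ (b (gr f x)).val - c)) := by
    intro F b c hF b'
    have h1 : ∑ x, z ^ (b' (gr f x)).val * (F x * (z ^ (b (gr f x)).val - c)) =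
        ∑ x, z ^ ((b' + b) (gr f x)).val * F x - c * ∑ x, z ^ (b' (gr f x)).val * F x := by
      rw [mul_sum, ← sum_sub_distrib]
      refine sum_congr rfl fun x _ => ?_
      rw [AddMonoidHom.add_apply, Key.pow_val_add' hz1]
      ring
    rw [h1]
    exact dvd_sub (hF _) ((hF _).mul_left c)
  -- the digit factors
  have fine_digits : ∀ (As : List ((H × K →+ ZMod (p ^ 2)) × ℕ)) (F : H → 𝓞 L), fine F →
      fine (fun x => F x * (As.map fun a => z ^ (a.1 (gr f x)).val - z ^ a.2).prod) := by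
    intro As
    induction As with
    | nil => intro F hF; simpa using hF
    | cons a As ih =>
      intro F hF
      have h1 := ih _ (fine_step F a.1 (z ^ a.2) hF)
      refine cast ?_ h1
      congr 1
      funext x
      rw [List.map_cons, List.prod_cons]
      ring
  -- the linear factors
  set η : 𝓞 L := z ^ (p ^ 1) with hηdef
  have hbl : ∀ l : H × K →+ ZMod p, ∃ b : H × K →+ ZMod (p ^ (1 + 1)), ∀ g,
      z ^ (b g).val = η ^ (l g).val := by
    intro l
    obtain ⟨b, hb⟩ := Key.exists_hom (n := p) (m := p ^ 1) (N := p ^ (1 + 1)) (pow_succ p 1).symm l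
    exact ⟨b, hb (𝓞 L) z hz1⟩
  have fine_list : ∀ Ls : List ((H × K →+ ZMod p) × ZMod p), ∀ F, fine F →
      fine (fun x => F x * (Ls.map fun l => η ^ (l.1 (gr f x)).val - η ^ l.2.val).prod) := by
    intro Ls
    induction Ls with
    | nil => intro F hF; simpa using hF
    | cons l Ls ih =>
      intro F hF
      obtain ⟨b', hb'⟩ := hbl l.1
      have h1 := ih _ (fine_step F b' (η ^ l.2.val) hF)
      refine cast ?_ h1
      congr 1
      funext x
      rw [List.map_cons, List.prod_cons, hb']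
      ring
  have hfin := fine_list Ls _ (fine_digits As _ fine_one) 0
  -- local expansions
  have hππ : (z - 1) ∣ (p : 𝓞 L) := pi_dvd_p hζ
  have hdig : ∀ (a : (H × K →+ ZMod (p ^ 2)) × ℕ) x, ∃ u : 𝓞 L,
      z ^ (a.1 (gr f x)).val - z ^ a.2 = (z - 1) * u ∧
      (z - 1) ∣ u - (((a.1 (gr f x)).val : 𝓞 L) - (a.2 : 𝓞 L)) := by
    intro a x
    exact lin_factor z (z - 1) (dvd_refl _) _ _
  choose u hu1 hu2 using hdig
  have hlin : ∀ (l : (H × K →+ ZMod p) × ZMod p) x, ∃ u : 𝓞 L,
      η ^ (l.1 (gr f x)).val - η ^ l.2.val = (η - 1) * u ∧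
      (z - 1) ∣ u - (((l.1 (gr f x)).val : 𝓞 L) - (l.2.val : 𝓞 L)) := by
    intro l x
    exact lin_factor η (z - 1) (sub_one_dvd_pow_sub_one z _) _ _
  choose w hw1 hw2 using hlin
  set C : 𝓞 L := (z - 1) ^ As.length * (η - 1) ^ Ls.length with hC
  set U : H → 𝓞 L := fun x => (As.map fun a => u a x).prod * (Ls.map fun l => w l x).prod with hU
  have hprod : ∀ x, (As.map fun a => z ^ (a.1 (gr f x)).val - z ^ a.2).prod *
      (Ls.map fun l => η ^ (l.1 (gr f x)).val - η ^ l.2.val).prod = C * U x := by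
    intro x
    have h1 : ∀ As : List ((H × K →+ ZMod (p ^ 2)) × ℕ),
        (As.map fun a => z ^ (a.1 (gr f x)).val - z ^ a.2).prod =
        (z - 1) ^ As.length * (As.map fun a => u a x).prod := by
      intro As
      induction As with
      | nil => simp
      | cons a As ih =>
        rw [List.map_cons, List.prod_cons, ih, hu1 a x, List.map_cons, List.prod_cons,
          List.length_cons]
        ring
    have h2 : ∀ Ls : List ((H × K →+ ZMod p) × ZMod p),
        (Ls.map fun l => η ^ (l.1 (gr f x)).val - η ^ l.2.val).prod =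
        (η - 1) ^ Ls.length * (Ls.map fun l => w l x).prod := by
      intro Ls
      induction Ls with
      | nil => simp
      | cons l Ls ih =>
        rw [List.map_cons, List.prod_cons, ih, hw1 l x, List.map_cons, List.prod_cons,
          List.length_cons]
        ring
    rw [h1, h2, hC, hU]
    ring
  have hdvd : (z - 1) ^ M ∣ C * ∑ x, U x := by
    rw [mul_sum]
    refine cast ?_ hfin
    congr 1
    refine sum_congr rfl fun x _ => ?_
    rw [AddMonoidHom.zero_apply, ZMod.val_zero, pow_zero, one_mul]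
    show 1 * (As.map fun a => z ^ (a.1 (gr f x)).val - z ^ a.2).prod *
      (Ls.map fun l => η ^ (l.1 (gr f x)).val - η ^ l.2.val).prod = C * U x
    rw [one_mul]
    exact hprod x
  obtain ⟨cost, hcost⟩ : ∃ c, c = As.length + p * Ls.length := ⟨_, rfl⟩
  have hCc : C ∣ (z - 1) ^ cost := by
    have h4 : (η - 1) ^ Ls.length ∣ (z - 1) ^ (p * Ls.length) := by
      rw [pow_mul]
      refine pow_dvd_pow_of_dvd ?_ _
      have h5 := cost_lin hζ
      rw [pow_one] at h5
      rw [hηdef, pow_one]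
      exact h5
    have e : (z - 1) ^ (As.length + p * Ls.length) =
        (z - 1) ^ As.length * (z - 1) ^ (p * Ls.length) :=
      pow_add _ _ _
    rw [hC, hcost, e]
    exact mul_dvd_mul (dvd_refl _) h4
  have hMc : cost < M := by
    have e : r * (p ^ 1 * (p - 1)) = r * p * (p - 1) := by rw [pow_one, mul_assoc]
    rw [← hcost] at hn
    omega
  have hπU : (z - 1) ∣ ∑ x, U x := by
    refine cancel (c := C) (C := cost * p) hζ hdvd ?_ ?_
    · rw [pow_mul]
      exact pow_dvd_pow_of_dvd hCc p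
    · rw [mul_comm]
      exact Nat.mul_lt_mul_of_pos_left hMc hpos
  -- reduction
  have hcong : ∀ x, (z - 1) ∣ U x - (((As.map fun a => ((a.1 (gr f x)).val : ℤ) - (a.2 : ℤ)).prod *
      (Ls.map fun l => ((l.1 (gr f x)).val : ℤ) - (l.2.val : ℤ)).prod : ℤ) : 𝓞 L) := by
    intro x
    have hmk : ∀ a b : 𝓞 L, (z - 1) ∣ a - b ↔
        Ideal.Quotient.mk (Ideal.span {z - 1}) a = Ideal.Quotient.mk (Ideal.span {z - 1}) b := by
      intro a b
      rw [Ideal.Quotient.eq, Ideal.mem_span_singleton]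
    rw [hmk, hU]
    have e1 : ∀ As : List ((H × K →+ ZMod (p ^ 2)) × ℕ),
        Ideal.Quotient.mk (Ideal.span {z - 1}) (As.map fun a => u a x).prod =
        Ideal.Quotient.mk (Ideal.span {z - 1})
          (((As.map fun a => ((a.1 (gr f x)).val : ℤ) - (a.2 : ℤ)).prod : ℤ) : 𝓞 L) := by
      intro As
      induction As with
      | nil => simp
      | cons a As ih =>
        rw [List.map_cons, List.prod_cons, map_mul, ih, (hmk _ _).1 (hu2 a x), List.map_cons,
          List.prod_cons, ← map_mul]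
        push_cast
        ring_nf
    have e2 : ∀ Ls : List ((H × K →+ ZMod p) × ZMod p),
        Ideal.Quotient.mk (Ideal.span {z - 1}) (Ls.map fun l => w l x).prod =
        Ideal.Quotient.mk (Ideal.span {z - 1})
          (((Ls.map fun l => ((l.1 (gr f x)).val : ℤ) - (l.2.val : ℤ)).prod : ℤ) : 𝓞 L) := by
      intro Ls
      induction Ls with
      | nil => simp
      | cons l Ls ih =>
        rw [List.map_cons, List.prod_cons, map_mul, ih, (hmk _ _).1 (hw2 l x), List.map_cons,
          List.prod_cons, ← map_mul]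
        push_cast
        ring_nf
    simp only [map_mul, e1, e2, Int.cast_mul]
  have hsumdvd : (z - 1) ∣ ((∑ x, ((As.map fun a => ((a.1 (gr f x)).val : ℤ) - (a.2 : ℤ)).prod *
      (Ls.map fun l => ((l.1 (gr f x)).val : ℤ) - (l.2.val : ℤ)).prod) : ℤ) : 𝓞 L) := by
    have h1 := dvd_sum fun x (_ : x ∈ (univ : Finset H)) => hcong x
    rw [sum_sub_distrib] at h1
    have h2 := (dvd_sub_right hπU).1 h1
    rw [Int.cast_sum]
    exact h2
  have hdvdp := dvd_of_pi_dvd hζ _ hsumdvd
  have hz0 := (ZMod.intCast_zmod_eq_zero_iff_dvd _ p).2 hdvdp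
  rw [Int.cast_sum] at hz0
  refine Eq.trans (sum_congr rfl fun x _ => ?_) hz0
  have e3 : ∀ Ls : List ((H × K →+ ZMod p) × ZMod p),
      (((Ls.map fun l => ((l.1 (gr f x)).val : ℤ) - (l.2.val : ℤ)).prod : ℤ) : ZMod p) =
      (Ls.map fun l => l.1 (gr f x) - l.2).prod := by
    intro Ls
    induction Ls with
    | nil => simp
    | cons l Ls ih =>
      rw [List.map_cons, List.prod_cons, Int.cast_mul, ih, List.map_cons, List.prod_cons]
      push_cast
      rw [ZMod.natCast_zmod_val, ZMod.natCast_zmod_val]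
  have e4 : ∀ As : List ((H × K →+ ZMod (p ^ 2)) × ℕ),
      (((As.map fun a => ((a.1 (gr f x)).val : ℤ) - (a.2 : ℤ)).prod : ℤ) : ZMod p) =
      (As.map fun a => ((a.1 (gr f x)).val : ZMod p) - (a.2 : ZMod p)).prod := by
    intro As
    induction As with
    | nil => simp
    | cons a As ih =>
      rw [List.map_cons, List.prod_cons, Int.cast_mul, ih, List.map_cons, List.prod_cons]
      push_cast
      rfl
  rw [Int.cast_mul, e3, e4]

end Pool.Agent.H38.K4
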