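import Pool.Agent.H38.K4.Core2
import Pool.Agent.H38.K4.Lin
import Pool.Agent.H38.T35.Sep9
import Pool.Agent.H16.RB.Pair

/-!
# K4 module Homs: slice coordinates and light coordinates of a group `G` with `9 G = 0`
-/

set_option autoImplicit false

namespace Pool.Agent.H38.K4

open Finset Pool.Agent.H16.RB
open scoped Classical

variable {G : Type*} [AddCommGroup G] [Finite G]

theorem greedy {F : Set (G →+ ZMod 3)} {Q : AddSubgroup G} (hQ : ∀ l ∈ F, ∀ x ∈ Q, l x = 0) :
    ∀ (n : ℕ) (P : AddSubgroup G), Q ≤ P → Nat.card P = 3 ^ n * Nat.card Q →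
      (∀ x ∈ P, x ∉ Q → ∃ l ∈ F, l x ≠ 0) →
      ∃ l : Fin n → (G →+ ZMod 3), (∀ i, l i ∈ F) ∧ ∀ x ∈ P, (∀ i, l i x = 0) → x ∈ Q := by
  intro n
  induction n with
  | zero =>
    intro P hP hc _
    refine ⟨fun i => i.elim0, fun i => i.elim0, fun x hx _ => ?_⟩
    rw [pow_zero, one_mul] at hc
    have : Q = P := by
      refine SetLike.coe_injective (Set.eq_of_subset_of_ncard_le hP ?_ (Set.toFinite _))
      exact hc.le
    rw [this]
    exact hx
  | succ n ih =>
    intro P hP hc hsep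
    have hpos : 0 < Nat.card Q := Nat.card_pos
    obtain ⟨x, hx, hxQ⟩ : ∃ x ∈ P, x ∉ Q := by
      by_contra hcon
      push Not at hcon
      have h1 : P = Q := le_antisymm hcon hP
      rw [h1] at hc
      have h2 : 3 ≤ 3 ^ (n + 1) := by
        calc 3 = 3 ^ 1 := (pow_one 3).symm
          _ ≤ 3 ^ (n + 1) := Nat.pow_le_pow_right (by norm_num) (by omega)
      nlinarith
    obtain ⟨l0, hl0, hlx⟩ := hsep x hx hxQ
    have h1 : Nat.card (P ⊓ l0.ker : AddSubgroup G) * l0.ker.relIndex P = Nat.card P := by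
      have h := AddSubgroup.relIndex_mul_relIndex ⊥ (P ⊓ l0.ker) P bot_le inf_le_left
      rwa [AddSubgroup.relIndex_bot_left, AddSubgroup.relIndex_bot_left,
        AddSubgroup.inf_relIndex_left] at h
    have h2 : l0.ker.relIndex P ∣ 3 := by
      refine (AddSubgroup.relIndex_dvd_index_of_normal _ _).trans ?_
      rw [AddSubgroup.index_ker]
      have h := AddSubgroup.card_addSubgroup_dvd_card l0.range
      rw [Nat.card_zmod] at h
      exact h
    have h3 : l0.ker.relIndex P ≠ 1 := by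
      rw [Ne, AddSubgroup.relIndex_eq_one]
      intro h
      exact hlx (h hx)
    have h4 : l0.ker.relIndex P = 3 := ((Nat.dvd_prime Nat.prime_three).1 h2).resolve_left h3
    have h5 : Nat.card (P ⊓ l0.ker : AddSubgroup G) = 3 ^ n * Nat.card Q := by
      rw [h4, hc, pow_succ] at h1
      nlinarith
    obtain ⟨l, hl, hl'⟩ := ih (P ⊓ l0.ker) (le_inf hP fun y hy => hQ l0 hl0 y hy) h5
      fun y hy hyQ => hsep y hy.1 hyQ
    refine ⟨Fin.cons l0 l, fun i => ?_, fun y hy h => hl' y ⟨hy, ?_⟩ fun i => ?_⟩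
    · refine Fin.cases ?_ (fun i => ?_) i
      · exact hl0
      · exact hl i
    · exact h 0
    · exact h i.succ

/-- four homomorphisms to `ZMod 9` whose first digits determine `g` modulo `{g | 3 • g = 0}` -/
theorem four_homs (h9 : ∀ g : G, 9 • g = 0)
    (hP : Nat.card (Set.range fun g : G => 3 • g) = 3 ^ 4) :
    ∃ α : Fin 4 → (G →+ ZMod (3 ^ 2)), ∀ g : G,
      (∀ i, ((α i g).val : ZMod 3) = 0) ↔ 3 • g = 0 := by
  have hd : (3 : ℕ) ∣ 3 ^ 2 := ⟨3, by norm_num⟩
  let dig : (G →+ ZMod (3 ^ 2)) → (G →+ ZMod 3) := fun a =>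
    (ZMod.castHom hd (ZMod 3)).toAddMonoidHom.comp a
  have hdig : ∀ a g, dig a g = ((a g).val : ZMod 3) := by
    intro a g
    show ZMod.castHom hd (ZMod 3) (a g) = _
    rw [ZMod.castHom_apply, ZMod.natCast_val]
  let Q : AddSubgroup G := (nsmulAddMonoidHom (α := G) 3).ker
  have hmemQ : ∀ g, g ∈ Q ↔ 3 • g = 0 := fun g => AddMonoidHom.mem_ker
  have key0 : ∀ x : ZMod (3 ^ 2), 3 • x = 0 → (x.val : ZMod 3) = 0 := by decide
  have key1 : ∀ x : ZMod (3 ^ 2), 3 • x ≠ 0 → (x.val : ZMod 3) ≠ 0 := by decide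
  have hQ0 : ∀ (a : G →+ ZMod (3 ^ 2)) (g : G), 3 • g = 0 → dig a g = 0 := by
    intro a g hg
    rw [hdig]
    apply key0
    rw [← map_nsmul, hg, map_zero]
  obtain ⟨l, hl, hl'⟩ := greedy (F := Set.range dig) (Q := Q) (by
    rintro _ ⟨a, rfl⟩ x hx
    exact hQ0 a x ((hmemQ x).1 hx)) 4 ⊤ le_top (by
      have h1 : Nat.card Q * Q.index = Nat.card G := AddSubgroup.card_mul_index _
      have h2 : Q.index = 3 ^ 4 := by
        rw [AddSubgroup.index_ker, ← hP]
        rfl
      rw [AddSubgroup.card_top, ← h1, h2, mul_comm]) (by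
      intro x _ hx
      rw [hmemQ] at hx
      obtain ⟨a, ha⟩ := Pool.Agent.H38.T35.sep9 h9 (3 • x) hx
      have ha' : (a : G →+ ZMod 9) (3 • x) ≠ 0 := ha
      refine ⟨dig a, ⟨a, rfl⟩, ?_⟩
      rw [hdig]
      apply key1
      rw [← map_nsmul]
      exact ha')
  choose α hα using hl
  refine ⟨α, fun g => ⟨fun h => ?_, fun h i => ?_⟩⟩
  · rw [← hmemQ]
    refine hl' g (AddSubgroup.mem_top g) fun i => ?_
    rw [← hα i, hdig]
    exact h i
  · rw [← hdig]
    exact hQ0 _ _ h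

/-- the four first digits as one homomorphism -/
theorem slice_coord (h9 : ∀ g : G, 9 • g = 0)
    (hP : Nat.card (Set.range fun g : G => 3 • g) = 3 ^ 4) :
    ∃ C : G →+ V, (∀ g, C g = 0 ↔ 3 • g = 0) ∧
      ∀ a : V →+ ZMod 3, ∃ A : G →+ ZMod (3 ^ 2), ∀ g, ((A g).val : ZMod 3) = a (C g) := by
  have hd : (3 : ℕ) ∣ 3 ^ 2 := ⟨3, by norm_num⟩
  obtain ⟨α, hα⟩ := four_homs h9 hP
  let C : G →+ V :=
    { toFun := fun g i => ZMod.castHom hd (ZMod 3) (α i g)
      map_zero' := by funext i; simp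
      map_add' := fun x y => by funext i; simp }
  have hC : ∀ g i, C g i = ((α i g).val : ZMod 3) := by
    intro g i
    show ZMod.castHom hd (ZMod 3) (α i g) = _
    rw [ZMod.castHom_apply, ZMod.natCast_val]
  refine ⟨C, fun g => ?_, fun a => ?_⟩
  · rw [← hα g]
    constructor
    · intro h i
      rw [← hC, h]
      rfl
    · intro h
      funext i
      rw [hC]
      exact h i
  · refine ⟨∑ i, (a (Pi.single i 1)).val • α i, fun g => ?_⟩
    have h1 : ((((∑ i, (a (Pi.single i 1)).val • α i : G →+ ZMod (3 ^ 2)) g).val : ℕ) : ZMod 3) =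
        ∑ i, a (Pi.single i 1) * C g i := by
      have hcast : ∀ x : ZMod (3 ^ 2), ((x.val : ℕ) : ZMod 3) = ZMod.castHom hd (ZMod 3) x :=
        fun x => by rw [ZMod.castHom_apply, ZMod.natCast_val]
      rw [hcast, AddMonoidHom.finsetSum_apply, map_sum]
      refine sum_congr rfl fun i _ => ?_
      rw [AddMonoidHom.nsmul_apply, map_nsmul, nsmul_eq_mul, ZMod.natCast_zmod_val]
      rfl
    rw [h1]
    have h2 : C g = ∑ i, (C g i).val • (Pi.single i 1 : V) := by
      funext j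
      rw [Finset.sum_apply]
      simp only [Pi.smul_apply, Pi.single_apply, nsmul_eq_mul, ZMod.natCast_zmod_val, mul_ite,
        mul_one, mul_zero, sum_ite_eq, mem_univ, if_true]
    conv_rhs => rw [h2, map_sum]
    refine sum_congr rfl fun i _ => ?_
    rw [map_nsmul, nsmul_eq_mul, ZMod.natCast_zmod_val, mul_comm]

/-- light coordinates -/
theorem light_coord (hG : Nat.card G = 3 ^ 12) (h9 : ∀ g : G, 9 • g = 0)
    (hP : Nat.card (Set.range fun g : G => 3 • g) = 3 ^ 4) :
    ∃ Y : G →+ V, ∀ v : V, ∃ g : G, 3 • g = 0 ∧ Y g = v := by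
  have h3 : Fact (Nat.Prime 3) := ⟨Nat.prime_three⟩
  let P : AddSubgroup G := (nsmulAddMonoidHom (α := G) 3).ker
  let Q : AddSubgroup G := (nsmulAddMonoidHom (α := G) 3).range
  have hmemP : ∀ g, g ∈ P ↔ 3 • g = 0 := fun g => AddMonoidHom.mem_ker
  have hQ : Nat.card Q = 3 ^ 4 := by
    rw [← hP]
    rfl
  have hPc : Nat.card P = 3 ^ 8 := by
    have h1 : Nat.card P * P.index = Nat.card G := AddSubgroup.card_mul_index _
    have h2 : P.index = 3 ^ 4 := by
      rw [AddSubgroup.index_ker]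
      exact hQ
    rw [h2, hG] at h1
    omega
  have hQP : Q ≤ P := by
    rintro _ ⟨g, rfl⟩
    rw [hmemP]
    show 3 • (3 • g) = 0
    rw [smul_smul]
    exact h9 g
  have hF : ∀ l : G →+ ZMod 3, ∀ x ∈ Q, l x = 0 := by
    rintro l _ ⟨g, rfl⟩
    show l (3 • g) = 0
    rw [map_nsmul, nsmul_eq_mul, ZMod.natCast_self, zero_mul]
  obtain ⟨l, -, hl⟩ := greedy (F := Set.univ) (Q := Q) (fun l _ => hF l) 4 P hQP
    (by rw [hQ, hPc]; norm_num) (by
      intro x _ hx
      by_contra hcon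
      push Not at hcon
      exact hx (sep x fun l => hcon l (Set.mem_univ l)))
  let Y : G →+ V :=
    { toFun := fun g i => l i g
      map_zero' := by funext i; simp
      map_add' := fun x y => by funext i; simp }
  refine ⟨Y, ?_⟩
  let Y' : P →+ V := Y.comp P.subtype
  have hker : Y'.ker = Q.addSubgroupOf P := by
    ext g
    rw [AddMonoidHom.mem_ker, AddSubgroup.mem_addSubgroupOf]
    constructor
    · intro h
      exact hl g.1 g.2 fun i => congrFun h i
    · intro h
      funext i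
      exact hF (l i) _ h
  have hr : Nat.card Y'.range = 3 ^ 4 := by
    have h1 : Nat.card Y'.ker * Y'.ker.index = Nat.card P := AddSubgroup.card_mul_index _
    rw [AddSubgroup.index_ker] at h1
    have h2 : Nat.card Y'.ker = 3 ^ 4 := by
      rw [hker, ← hQ]
      exact Nat.card_congr (AddSubgroup.addSubgroupOfEquivOfLe hQP).toEquiv
    rw [h2, hPc] at h1
    omega
  have htop : Y'.range = ⊤ := by
    apply AddSubgroup.eq_top_of_card_eq
    rw [hr, Nat.card_eq_fintype_card]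
    show 3 ^ 4 = Fintype.card (Fin 4 → ZMod 3)
    rw [Fintype.card_fun, ZMod.card, Fintype.card_fin]
  intro v
  obtain ⟨g, hg⟩ : v ∈ Y'.range := by rw [htop]; exact AddSubgroup.mem_top v
  exact ⟨g.1, (hmemP g.1).1 g.2, hg⟩

theorem dt_single (a : V) (j : Fin 4) (s : ZMod 3) : dt a (Pi.single j s) = a j * s := by
  rw [dt_apply]
  rw [sum_eq_single j]
  · rw [Pi.single_eq_same]
  · intro i _ hi
    rw [Pi.single_eq_of_ne hi, mul_zero]
  · intro h
    exact absurd (mem_univ _) h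

theorem ind_ne {a b : V} (h : Ind a b) : ∃ i, a i ≠ 0 := by
  by_contra hcon
  push Not at hcon
  have : a = 0 := funext hcon
  have h1 := h 1 0 (by rw [this]; simp)
  exact absurd h1.1 (by decide)

theorem ind_left {a b : V} (h : Ind a b) : ∃ v, dt a v ≠ 0 := by
  obtain ⟨i, hi⟩ := ind_ne h
  refine ⟨Pi.single i 1, ?_⟩
  rw [dt_single, mul_one]
  exact hi

theorem ind_right {a b : V} (h : Ind a b) : ∃ v, dt a v = 0 ∧ dt b v ≠ 0 := by
  obtain ⟨i, hi⟩ := ind_ne h
  by_contra hcon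
  push Not at hcon
  have h1 : ∀ j, a i * b j - a j * b i = 0 := by
    intro j
    have h2 := hcon (Pi.single j (a i) - Pi.single i (a j)) (by
      rw [map_sub, dt_single, dt_single]; ring)
    rw [map_sub, dt_single, dt_single] at h2
    rw [← h2]
    ring
  have h3 := h (-b i) (a i) (by
    funext j
    simp only [Pi.add_apply, Pi.smul_apply, smul_eq_mul, Pi.zero_apply]
    rw [← h1 j]
    ring)
  exact hi h3.2

omit [Finite G] in
/-- independent light functionals cut out 729 elements of `{g | 3 • g = 0}` -/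
theorem card_ind [Fintype G] (hG : Nat.card G = 3 ^ 12)
    (hP : Nat.card (Set.range fun g : G => 3 • g) = 3 ^ 4) {Y : G →+ V}
    (hY : ∀ v : V, ∃ g : G, 3 • g = 0 ∧ Y g = v) {a b : V} (h : Ind a b) :
    (univ.filter fun g : G => 3 • g = 0 ∧ dt a (Y g) = 0 ∧ dt b (Y g) = 0).card ≤ 729 := by
  let P : AddSubgroup G := (nsmulAddMonoidHom (α := G) 3).ker
  have hmemP : ∀ g, g ∈ P ↔ 3 • g = 0 := fun g => AddMonoidHom.mem_ker
  have hPc : Nat.card P = 3 ^ 8 := by
    have h1 : Nat.card P * P.index = Nat.card G := AddSubgroup.card_mul_index _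
    have h2 : P.index = 3 ^ 4 := by
      rw [AddSubgroup.index_ker]
      rw [← hP]
      rfl
    rw [h2, hG] at h1
    omega
  have step : ∀ (R : AddSubgroup G) (l : G →+ ZMod 3), (∃ x ∈ R, l x ≠ 0) →
      3 * Nat.card (R ⊓ l.ker : AddSubgroup G) = Nat.card R := by
    intro R l ⟨x, hx, hlx⟩
    have h1 : Nat.card (R ⊓ l.ker : AddSubgroup G) * l.ker.relIndex R = Nat.card R := by
      have h := AddSubgroup.relIndex_mul_relIndex ⊥ (R ⊓ l.ker) R bot_le inf_le_left
      rwa [AddSubgroup.relIndex_bot_left, AddSubgroup.relIndex_bot_left,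
        AddSubgroup.inf_relIndex_left] at h
    have h2 : l.ker.relIndex R ∣ 3 := by
      refine (AddSubgroup.relIndex_dvd_index_of_normal _ _).trans ?_
      rw [AddSubgroup.index_ker]
      have h := AddSubgroup.card_addSubgroup_dvd_card l.range
      rw [Nat.card_zmod] at h
      exact h
    have h3 : l.ker.relIndex R ≠ 1 := by
      rw [Ne, AddSubgroup.relIndex_eq_one]
      intro h
      exact hlx (h hx)
    have h4 : l.ker.relIndex R = 3 := ((Nat.dvd_prime Nat.prime_three).1 h2).resolve_left h3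
    rw [h4] at h1
    omega
  obtain ⟨v, hv⟩ := ind_left h
  obtain ⟨w, hw, hw'⟩ := ind_right h
  obtain ⟨x, hx, hxv⟩ := hY v
  obtain ⟨y, hy, hyw⟩ := hY w
  have s1 := step P ((dt a).comp Y) ⟨x, (hmemP x).2 hx, by
    show dt a (Y x) ≠ 0
    rw [hxv]; exact hv⟩
  have s2 := step (P ⊓ ((dt a).comp Y).ker) ((dt b).comp Y) ⟨y, ⟨(hmemP y).2 hy, by
    show dt a (Y y) = 0
    rw [hyw]; exact hw⟩, by
    show dt b (Y y) ≠ 0
    rw [hyw]; exact hw'⟩
  have h5 : Nat.card (P ⊓ ((dt a).comp Y).ker ⊓ ((dt b).comp Y).ker : AddSubgroup G) = 729 := by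
    omega
  rw [← h5, Nat.card_eq_fintype_card, Fintype.card_subtype]
  apply card_le_card
  intro g hg
  rw [mem_filter] at hg ⊢
  exact ⟨hg.1, ⟨⟨(hmemP g).2 hg.2.1, hg.2.2.1⟩, hg.2.2.2⟩⟩

end Pool.Agent.H38.K4
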