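import Pool.Agent.H38.K4.Cell

/-!
# K4 module Nine: slices of nine points

If some pair of functionals separates the nine points then all functionals are affine in the two functionals, and exactly 3888 pairs of functionals separate the points.
-/

set_option autoImplicit false

namespace Pool.Agent.H38.K4

open Finset Pool.Agent.H16.RB
open scoped Classical

variable {X : Type*} [Fintype X] {c Y : X → V}

theorem Cfg4.cell_pos (E : Cfg4 c Y) {a b z : V} (h : qq c Y a b z ≠ 0) (i j : ZMod 3) :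
    1 ≤ cell c Y a b z i j := by
  by_contra hcon
  have h0 : cell c Y a b z i j = 0 := by omega
  have := E.cell_eq a b z i j
  rw [h0, Nat.cast_zero] at this
  exact h this.symm

theorem Cfg4.cell_one (E : Cfg4 c Y) {a b z : V} (h9 : (sl4 c z).card = 9)
    (h : qq c Y a b z ≠ 0) (i j : ZMod 3) : cell c Y a b z i j = 1 := by
  have h1 := cell_sum (c := c) (Y := Y) a b z
  rw [h9] at h1
  have h2 : ∑ i : ZMod 3, ∑ j : ZMod 3, (1 : ℕ) = 9 := by
    simp only [sum_const, card_univ, ZMod.card]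
    norm_num
  have h3 : ∑ i : ZMod 3, ∑ j : ZMod 3, (1 : ℕ) = ∑ i, ∑ j, cell c Y a b z i j := by
    rw [h1, h2]
  have h4 := (sum_eq_sum_iff_of_le fun i (_ : i ∈ (univ : Finset (ZMod 3))) =>
    sum_le_sum fun j (_ : j ∈ (univ : Finset (ZMod 3))) => E.cell_pos h i j).1 h3 i (mem_univ i)
  exact ((sum_eq_sum_iff_of_le fun j (_ : j ∈ (univ : Finset (ZMod 3))) =>
    E.cell_pos h i j).1 h4 j (mem_univ j)).symm

theorem Cfg4.pt (E : Cfg4 c Y) {a b z : V} (h : qq c Y a b z ≠ 0) (i j : ZMod 3) :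
    ∃ x ∈ sl4 c z, dt a (Y x) = i ∧ dt b (Y x) = j := by
  have h1 := E.cell_pos h i j
  rw [cell, Nat.one_le_iff_ne_zero, ← Nat.pos_iff_ne_zero, card_pos] at h1
  obtain ⟨x, hx⟩ := h1
  rw [mem_filter] at hx
  exact ⟨x, hx.1, hx.2⟩

theorem Cfg4.uniq (E : Cfg4 c Y) {a b z : V} (h9 : (sl4 c z).card = 9)
    (h : qq c Y a b z ≠ 0) {x x' : X} (hx : x ∈ sl4 c z) (hx' : x' ∈ sl4 c z)
    (h1 : dt a (Y x) = dt a (Y x')) (h2 : dt b (Y x) = dt b (Y x')) : x = x' := by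
  have h3 := E.cell_one h9 h (dt a (Y x')) (dt b (Y x'))
  rw [cell, card_eq_one] at h3
  obtain ⟨w, hw⟩ := h3
  have hxw : x ∈ ({w} : Finset X) := by
    rw [← hw, mem_filter]; exact ⟨hx, h1, h2⟩
  have hxw' : x' ∈ ({w} : Finset X) := by
    rw [← hw, mem_filter]; exact ⟨hx', rfl, rfl⟩
  rw [mem_singleton] at hxw hxw'
  rw [hxw, hxw']

private theorem ind_pt : ∀ u v i j : ZMod 3,
    (1 - (u - i) ^ 2) * (1 - (v - j) ^ 2) = if u = i ∧ v = j then (1 : ZMod 3) else 0 := by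
  decide

private theorem three_eq : (3 : ZMod 3) = 0 := by decide

/-- all functionals are affine in the two -/
theorem Cfg4.affine (E : Cfg4 c Y) {a b z : V} (h9 : (sl4 c z).card = 9)
    (h : qq c Y a b z ≠ 0) (g : V) {x0 : X} (hx0 : x0 ∈ sl4 c z) :
    dt g (Y x0) = dt a (Y x0) * (∑ x ∈ sl4 c z, dt g (Y x) * (dt a (Y x) ^ 1 * dt b (Y x) ^ 2)) +
      dt b (Y x0) * (∑ x ∈ sl4 c z, dt g (Y x) * (dt a (Y x) ^ 2 * dt b (Y x) ^ 1)) +
      ∑ x ∈ sl4 c z, dt g (Y x) * (dt a (Y x) ^ 2 * dt b (Y x) ^ 2) := by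
  have h1 : dt g (Y x0) = ∑ x ∈ sl4 c z, dt g (Y x) *
      ((1 - (dt a (Y x) - dt a (Y x0)) ^ 2) * (1 - (dt b (Y x) - dt b (Y x0)) ^ 2)) := by
    rw [sum_eq_single_of_mem x0 hx0]
    · rw [sub_self, sub_self]
      ring
    · intro x hx hne
      rw [ind_pt, if_neg, mul_zero]
      rintro ⟨h2, h3⟩
      exact hne (E.uniq h9 h hx hx0 h2 h3)
  generalize dt a (Y x0) = i at *
  generalize dt b (Y x0) = j at *
  have h2 : ∀ x, dt g (Y x) * ((1 - (dt a (Y x) - i) ^ 2) * (1 - (dt b (Y x) - j) ^ 2)) =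
      (i * (dt g (Y x) * (dt a (Y x) ^ 1 * dt b (Y x) ^ 2)) +
      j * (dt g (Y x) * (dt a (Y x) ^ 2 * dt b (Y x) ^ 1)) +
      dt g (Y x) * (dt a (Y x) ^ 2 * dt b (Y x) ^ 2)) +
      ((1 - i ^ 2) * (1 - j ^ 2) * (dt g (Y x) * (dt a (Y x) ^ 0 * dt b (Y x) ^ 0)) +
      ((1 - i ^ 2) * (2 * j) * (dt g (Y x) * (dt a (Y x) ^ 0 * dt b (Y x) ^ 1)) +
      (-(1 - i ^ 2) * (dt g (Y x) * (dt a (Y x) ^ 0 * dt b (Y x) ^ 2)) +
      (2 * i * (1 - j ^ 2) * (dt g (Y x) * (dt a (Y x) ^ 1 * dt b (Y x) ^ 0)) +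
      (4 * i * j * (dt g (Y x) * (dt a (Y x) ^ 1 * dt b (Y x) ^ 1)) +
      (-(1 - j ^ 2) * (dt g (Y x) * (dt a (Y x) ^ 2 * dt b (Y x) ^ 0)))))))) := by
    intro x
    linear_combination (-(i * (dt g (Y x) * (dt a (Y x) ^ 1 * dt b (Y x) ^ 2))) -
      j * (dt g (Y x) * (dt a (Y x) ^ 2 * dt b (Y x) ^ 1))) * three_eq
  rw [h1, sum_congr rfl fun x _ => h2 x]
  simp only [sum_add_distrib, ← mul_sum]
  rw [E.mon' g a b z 0 0 (by norm_num), E.mon' g a b z 0 1 (by norm_num),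
    E.mon' g a b z 0 2 (by norm_num), E.mon' g a b z 1 0 (by norm_num),
    E.mon' g a b z 1 1 (by norm_num), E.mon' g a b z 2 0 (by norm_num)]
  ring

private theorem det_dec : ∀ u v w x : ZMod 3, u * x - v * w = 0 →
    ∃ s t : ZMod 3, (s ≠ 0 ∨ t ≠ 0) ∧ s * u + t * w = 0 ∧ s * v + t * x = 0 := by decide

private theorem sq_dec : ∀ s t : ZMod 3, s * s + t * t = 0 → s = 0 ∧ t = 0 := by decide

private theorem count48 : (univ.filter fun y : (ZMod 3 × ZMod 3) × (ZMod 3 × ZMod 3) =>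
    y.1.1 * y.2.2 - y.1.2 * y.2.1 ≠ 0).card = 48 := by decide

/-- the homomorphism -/
noncomputable def ph (c Y : X → V) (a b z : V) : V →+ ZMod 3 × ZMod 3 where
  toFun g := (∑ x ∈ sl4 c z, dt g (Y x) * (dt a (Y x) ^ 1 * dt b (Y x) ^ 2),
    ∑ x ∈ sl4 c z, dt g (Y x) * (dt a (Y x) ^ 2 * dt b (Y x) ^ 1))
  map_zero' := by
    have h : ∀ y : V, dt 0 y = 0 := fun y => by rw [dt_apply]; simp
    simp [h]
  map_add' g g' := by
    simp only [dt_add, add_mul, sum_add_distrib, Prod.mk_add_mk]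

theorem card_V : Fintype.card V = 81 := by
  rw [Fintype.card_fun, ZMod.card, Fintype.card_fin]
  norm_num

/-- fibres of a surjective homomorphism -/
theorem fib_nine (φ : V →+ ZMod 3 × ZMod 3) (hφ : Function.Surjective φ)
    (u : ZMod 3 × ZMod 3) : (univ.filter fun g => φ g = u).card = 9 := by
  have h1 : ∀ u, (univ.filter fun g => φ g = u).card = (univ.filter fun g => φ g = 0).card := by
    intro u
    obtain ⟨g0, hg0⟩ := hφ u
    refine card_bij' (fun g _ => g - g0) (fun g _ => g + g0) ?_ ?_ ?_ ?_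
    · intro g hg
      rw [mem_filter] at hg ⊢
      exact ⟨mem_univ _, by rw [map_sub, hg.2, hg0, sub_self]⟩
    · intro g hg
      rw [mem_filter] at hg ⊢
      exact ⟨mem_univ _, by rw [map_add, hg.2, hg0, zero_add]⟩
    · intro g _
      exact sub_add_cancel g g0
    · intro g _
      exact add_sub_cancel_right g g0
  have h2 : Fintype.card V = ∑ u : ZMod 3 × ZMod 3, (univ.filter fun g => φ g = u).card := by
    rw [← card_univ]
    exact card_eq_sum_card_fiberwise fun _ _ => mem_coe.2 (mem_univ _)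
  rw [card_V, sum_congr rfl fun u _ => h1 u, sum_const, card_univ, Fintype.card_prod, ZMod.card,
    smul_eq_mul] at h2
  rw [h1]
  omega

/-- nonzero determinant -/
def DD (u v : ZMod 3 × ZMod 3) : Prop := u.1 * v.2 - u.2 * v.1 ≠ 0

set_option maxRecDepth 100000 in
/-- number of pairs with nonzero determinant -/
theorem count_le (φ : V →+ ZMod 3 × ZMod 3) (hφ : Function.Surjective φ) (P : V × V → Prop)
    (hP : ∀ y, P y → DD (φ y.1) (φ y.2)) :
    (univ.filter P).card ≤ 3888 := by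
  obtain ⟨W, hW⟩ : ∃ W : Finset ((ZMod 3 × ZMod 3) × (ZMod 3 × ZMod 3)),
      W = univ.filter fun y => DD y.1 y.2 := ⟨_, rfl⟩
  have hW48 : W.card = 48 := by
    rw [hW, ← count48]
    congr 1
    ext y
    simp only [mem_filter, DD]
  have h1 : (univ.filter P).card = ∑ w ∈ W, ((univ.filter P).filter fun y =>
      (φ y.1, φ y.2) = w).card := by
    refine card_eq_sum_card_fiberwise fun y hy => ?_
    have hy' := (mem_filter.1 (mem_coe.1 hy)).2
    rw [hW, mem_coe, mem_filter]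
    exact ⟨mem_univ _, hP y hy'⟩
  have h2 : ∀ w ∈ W, ((univ.filter P).filter fun y => (φ y.1, φ y.2) = w).card ≤ 81 := by
    intro w _
    have h3 : ((univ.filter P).filter fun y => (φ y.1, φ y.2) = w) ⊆
        (univ.filter fun g => φ g = w.1) ×ˢ (univ.filter fun g => φ g = w.2) := by
      intro y hy
      have hy2 := (mem_filter.1 hy).2
      have e1 : φ y.1 = w.1 := congrArg Prod.fst hy2
      have e2 : φ y.2 = w.2 := congrArg Prod.snd hy2
      exact mem_product.2 ⟨mem_filter.2 ⟨mem_univ _, e1⟩, mem_filter.2 ⟨mem_univ _, e2⟩⟩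
    refine (card_le_card h3).trans ?_
    rw [card_product, fib_nine φ hφ, fib_nine φ hφ]
  rw [h1]
  calc _ ≤ ∑ _w ∈ W, 81 := sum_le_sum h2
    _ = 3888 := by rw [sum_const, hW48, smul_eq_mul]

/-- the pair `y` of functionals separates the slice `z` -/
def NZ (c Y : X → V) (z : V) (y : V × V) : Prop := qq c Y y.1 y.2 z ≠ 0

set_option maxRecDepth 100000 in
theorem Cfg4.nine_le (E : Cfg4 c Y) {z : V} (h9 : (sl4 c z).card = 9) :
    (univ.filter (NZ c Y z)).card ≤ 3888 := by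
  by_cases hex : ∃ y : V × V, NZ c Y z y
  swap
  · push Not at hex
    rw [filter_false_of_mem fun y _ => hex y, card_empty]
    exact Nat.zero_le _
  obtain ⟨⟨a, b⟩, hab⟩ := hex
  have hab : qq c Y a b z ≠ 0 := hab
  set φ := ph c Y a b z with hφ
  have hA : ∀ g x, x ∈ sl4 c z → dt g (Y x) = dt a (Y x) * (φ g).1 + dt b (Y x) * (φ g).2 +
      ∑ x ∈ sl4 c z, dt g (Y x) * (dt a (Y x) ^ 2 * dt b (Y x) ^ 2) := fun g x hx =>
    E.affine h9 hab g hx
  have hφa : φ a = (1, 0) := by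
    obtain ⟨x0, hx0, h0a, h0b⟩ := E.pt hab 0 0
    obtain ⟨x1, hx1, h1a, h1b⟩ := E.pt hab 1 0
    obtain ⟨x2, hx2, h2a, h2b⟩ := E.pt hab 0 1
    have e0 := hA a x0 hx0
    have e1 := hA a x1 hx1
    have e2 := hA a x2 hx2
    rw [h0a, h0b, zero_mul, zero_mul, zero_add, zero_add] at e0
    rw [h1a, h1b, ← e0, zero_mul, one_mul, add_zero, add_zero] at e1
    rw [h2a, h2b, ← e0, zero_mul, one_mul, add_zero, zero_add] at e2
    exact Prod.ext e1.symm e2.symm
  have hφb : φ b = (0, 1) := by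
    obtain ⟨x0, hx0, h0a, h0b⟩ := E.pt hab 0 0
    obtain ⟨x1, hx1, h1a, h1b⟩ := E.pt hab 1 0
    obtain ⟨x2, hx2, h2a, h2b⟩ := E.pt hab 0 1
    have e0 := hA b x0 hx0
    have e1 := hA b x1 hx1
    have e2 := hA b x2 hx2
    rw [h0a, h0b, zero_mul, zero_mul, zero_add, zero_add] at e0
    rw [h1a, h1b, ← e0, zero_mul, one_mul, add_zero, add_zero] at e1
    rw [h2a, h2b, ← e0, zero_mul, one_mul, add_zero, zero_add] at e2
    exact Prod.ext e1.symm e2.symm
  have hsurj : Function.Surjective φ := by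
    rintro ⟨s, t⟩
    refine ⟨s.val • a + t.val • b, ?_⟩
    rw [map_add, map_nsmul, map_nsmul, hφa, hφb]
    simp
  have hdet : ∀ y : V × V, NZ c Y z y → DD (φ y.1) (φ y.2) := by
    rintro ⟨a', b'⟩ hq h0
    have hq : qq c Y a' b' z ≠ 0 := hq
    simp only at h0
    obtain ⟨s, t, hst, h1, h2⟩ := det_dec _ _ _ _ h0
    obtain ⟨k, hk⟩ : ∃ k, ∀ x ∈ sl4 c z, s * dt a' (Y x) + t * dt b' (Y x) = k := by
      refine ⟨s * (∑ x ∈ sl4 c z, dt a' (Y x) * (dt a (Y x) ^ 2 * dt b (Y x) ^ 2)) +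
        t * (∑ x ∈ sl4 c z, dt b' (Y x) * (dt a (Y x) ^ 2 * dt b (Y x) ^ 2)), fun x hx => ?_⟩
      rw [hA a' x hx, hA b' x hx]
      linear_combination dt a (Y x) * h1 + dt b (Y x) * h2
    obtain ⟨x0, hx0, h0a, h0b⟩ := E.pt hq 0 0
    obtain ⟨x1, hx1, h1a, h1b⟩ := E.pt hq s t
    have e0 := hk x0 hx0
    have e1 := hk x1 hx1
    rw [h0a, h0b, mul_zero, mul_zero, add_zero] at e0
    rw [h1a, h1b, ← e0] at e1
    have := sq_dec s t e1
    rcases hst with h | h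
    · exact h this.1
    · exact h this.2
  exact count_le φ hsurj (NZ c Y z) hdet

end Pool.Agent.H38.K4
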