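import Pool.Agent.H38.K4.Dg

/-!
# K4 module Quad: quadratic functions on `F_3 ^ 4` with few values 2 and many nonzero values
-/

set_option autoImplicit false

namespace Pool.Agent.H38.K4

open Finset Pool.Agent.H16.RB

theorem diffs_append (L : List V) (e : V) (φ : V → ZMod 3) : ∀ x,
    diffs (L ++ [e]) φ x = diffs L (fun x => φ (x + e) - φ x) x := by
  induction L with
  | nil => intro x; rfl
  | cons a L ih =>
    intro x
    show diffs (L ++ [e]) φ (x + a) - diffs (L ++ [e]) φ x =
      diffs L (fun x => φ (x + e) - φ x) (x + a) - diffs L (fun x => φ (x + e) - φ x) x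
    rw [ih, ih]

theorem Dg.of_diffs : ∀ (n : ℕ) (φ : V → ZMod 3),
    (∀ L : List V, L.length = n + 1 → ∀ x, diffs L φ x = 0) → Dg n φ
  | 0, φ, h => fun e x => by
      have h1 := h [e] rfl x
      have h2 : φ (x + e) - φ x = 0 := h1
      exact sub_eq_zero.1 h2
  | n + 1, φ, h => fun e => Dg.of_diffs n _ fun L hL x => by
      rw [← diffs_append]
      exact h _ (by simp [hL]) x

/-- the sum over the lines of a direction is constant -/
theorem Dg.ln_const {q : V → ZMod 3} (hq : Dg 2 q) (e x : V) : ln e q x = ln e q 0 := by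
  have h : Dg 0 (ln e q) := Dg.ln_two (n := 0) e hq
  have := h x 0
  rwa [zero_add] at this

private theorem k2 : ∀ k : ℕ, k ≤ 3 → (k : ZMod 3) = 2 → k = 2 := by
  intro k hk h
  interval_cases k
  · exact absurd h (by decide)
  · exact absurd h (by decide)
  · rfl
  · exact absurd h (by decide)

private theorem k1 : ∀ k : ℕ, k ≤ 3 → (k : ZMod 3) = 1 → k = 1 := by
  intro k hk h
  interval_cases k
  · exact absurd h (by decide)
  · rfl
  · exact absurd h (by decide)
  · exact absurd h (by decide)

private theorem k0 : ∀ k : ℕ, k ≤ 3 → (k : ZMod 3) = 0 → k = 0 ∨ k = 3 := by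
  intro k hk h
  interval_cases k
  · exact Or.inl rfl
  · exact absurd h (by decide)
  · exact absurd h (by decide)
  · exact Or.inr rfl

theorem quad_count {q : V → ZMod 3} (hq : Dg 2 q)
    (h2 : (univ.filter fun z => q z = 2).card ≤ 8)
    (h41 : 41 ≤ (univ.filter fun z => q z ≠ 0).card) :
    54 ≤ (univ.filter fun z => q z ≠ 0).card := by
  have h01 : ∀ z, q z = 0 ∨ q z = 1 := by
    intro z
    rcases t3 (q z) with h | h | h
    · exact Or.inl h
    · exact Or.inr h
    · exfalso
      have h9 := warning hq h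
      have : (univ.filter fun z => q z = 2).card = (univ.filter fun z => q z = 2).card := rfl
      have h10 : 9 ≤ (univ.filter fun z => q z = 2).card := by convert h9
      omega
  obtain ⟨N, hN⟩ : ∃ N : V → ℕ, N = fun z => if q z ≠ 0 then 1 else 0 := ⟨_, rfl⟩
  have hN1 : ∀ z, N z ≤ 1 := by
    intro z
    rw [hN]
    simp only
    split_ifs <;> omega
  have hNq : ∀ z, (N z : ZMod 3) = q z := by
    intro z
    rw [hN]
    simp only
    rcases h01 z with h | h <;> simp [h]
  have hcard : (univ.filter fun z => q z ≠ 0).card = ∑ z, N z := by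
    rw [hN, card_filter]
  have hV : (univ : Finset V).card = 81 := by
    rw [card_univ, Fintype.card_fun, ZMod.card, Fintype.card_fin]
    norm_num
  have hk : ∀ e, ∑ x, (N x + N (x + e) + N (x + e + e)) = 3 * ∑ z, N z := by
    intro e
    rw [sum_add_distrib, sum_add_distrib]
    have h1 : ∑ x, N (x + e) = ∑ x, N x := Equiv.sum_comp (Equiv.addRight e) N
    have h2 : ∑ x, N (x + e + e) = ∑ x, N x :=
      (Equiv.sum_comp (Equiv.addRight e) fun x => N (x + e)).trans h1
    rw [h1, h2]
    ring
  have hkq : ∀ e x, ((N x + N (x + e) + N (x + e + e) : ℕ) : ZMod 3) = ln e q 0 := by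
    intro e x
    rw [← Dg.ln_const hq e x]
    push_cast
    rw [hNq, hNq, hNq, ln]
  have hk3 : ∀ e x, N x + N (x + e) + N (x + e + e) ≤ 3 := by
    intro e x
    have a1 := hN1 x
    have a2 := hN1 (x + e)
    have a3 := hN1 (x + e + e)
    omega
  rw [hcard] at h41 ⊢
  by_cases c2 : ∃ e, ln e q 0 = 2
  · obtain ⟨e, he⟩ := c2
    have h3 := hk e
    rw [sum_congr rfl fun x _ => k2 _ (hk3 e x) ((hkq e x).trans he), sum_const, hV,
      smul_eq_mul] at h3
    omega
  by_cases c1 : ∃ e, ln e q 0 = 1
  · obtain ⟨e, he⟩ := c1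
    have h3 := hk e
    rw [sum_congr rfl fun x _ => k1 _ (hk3 e x) ((hkq e x).trans he), sum_const, hV,
      smul_eq_mul] at h3
    omega
  have c0 : ∀ e, ln e q 0 = 0 := by
    intro e
    rcases t3 (ln e q 0) with h | h | h
    · exact h
    · exact absurd ⟨e, h⟩ c1
    · exact absurd ⟨e, h⟩ c2
  have hconst : ∀ x, N x = N 0 := by
    intro x
    have h3 := k0 _ (hk3 x 0) ((hkq x 0).trans (c0 x))
    rw [zero_add] at h3
    have a1 := hN1 x
    have a2 := hN1 0
    have a3 := hN1 (x + x)
    omega
  rw [sum_congr rfl fun x _ => hconst x, sum_const, hV, smul_eq_mul] at h41 ⊢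
  have := hN1 0
  omega

end Pool.Agent.H38.K4
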